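import Mathlib
set_option autoImplicit false

/-!
Growth of a plane convex set at a point: if `A ⊆ A'` are convex and `A' \ A` lies in the ball of radius
`δ` about a point `q` of `A`, then the area of `A' \ A` is `o(δ ^ 2)` (uniformly in `A'`).
-/

namespace Pool.Agent.TH605.CSC

open MeasureTheory Metric Set Filter Topology

noncomputable section

/-- the plane -/
abbrev E := EuclideanSpace ℝ (Fin 2)

/-- the union of all blow-ups of `A` at `q` -/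
def T0 (A : Set E) (q : E) : Set E := {x | ∃ δ : ℝ, 0 < δ ∧ q + δ • x ∈ A}

lemma mem_of_le {A : Set E} (hA : Convex ℝ A) {q x : E} (hq : q ∈ A) {δ δ' : ℝ} (h : 0 < δ)
    (h' : δ ≤ δ') (hx : q + δ' • x ∈ A) : q + δ • x ∈ A := by
  have hd : 0 < δ' := lt_of_lt_of_le h h'
  have h1 : 0 ≤ δ / δ' := by positivity
  have h2 : δ / δ' ≤ 1 := (div_le_one hd).2 h'
  have h3 := hA hq hx (by linarith : 0 ≤ 1 - δ / δ') h1 (by ring)
  have h4 : (1 - δ / δ') • q + (δ / δ') • (q + δ' • x) = q + δ • x := by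
    rw [smul_add, smul_smul, div_mul_cancel₀ _ hd.ne', sub_smul, one_smul]
    abel
  rwa [h4] at h3

lemma T0_convex {A : Set E} (hA : Convex ℝ A) {q : E} (hq : q ∈ A) : Convex ℝ (T0 A q) := by
  rintro x ⟨d1, hd1, h1⟩ y ⟨d2, hd2, h2⟩ a b ha hb hab
  refine ⟨min d1 d2, lt_min hd1 hd2, ?_⟩
  have h3 := mem_of_le hA hq (lt_min hd1 hd2) (min_le_left _ _) h1
  have h4 := mem_of_le hA hq (lt_min hd1 hd2) (min_le_right _ _) h2
  have h5 := hA h3 h4 ha hb hab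
  have h6 : a • (q + min d1 d2 • x) + b • (q + min d1 d2 • y) =
      q + min d1 d2 • (a • x + b • y) := by
    rw [smul_add, smul_add, smul_add, smul_comm a, smul_comm b]
    have : a • q + b • q = q := by rw [← add_smul, hab, one_smul]
    calc a • q + min d1 d2 • a • x + (b • q + min d1 d2 • b • y)
        = (a • q + b • q) + (min d1 d2 • a • x + min d1 d2 • b • y) := by abel
      _ = _ := by rw [this]
  rwa [h6] at h5

lemma T0_smul {A : Set E} {q x : E} (hx : x ∈ T0 A q) {r : ℝ} (hr : 0 < r) : r • x ∈ T0 A q := by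
  obtain ⟨d, hd, h⟩ := hx
  refine ⟨d / r, by positivity, ?_⟩
  rwa [smul_smul, div_mul_cancel₀ _ hr.ne']

lemma T_smul {A : Set E} {q x : E} (hx : x ∈ closure (T0 A q)) {r : ℝ} (hr : 0 < r) :
    r • x ∈ closure (T0 A q) :=
  map_mem_closure (continuous_const_smul r) hx (fun _ hy => T0_smul hy hr)

lemma zero_mem_T0 {A : Set E} {q : E} (hq : q ∈ A) : (0 : E) ∈ T0 A q :=
  ⟨1, one_pos, by simpa using hq⟩

/-- A point outside a closed cone stays outside when it is moved by `3` in a suitable direction of the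
cone. -/
lemma far_dir {T : Set E} (hcl : IsClosed T) (h0 : (0 : E) ∈ T)
    (hsm : ∀ x ∈ T, ∀ r : ℝ, 0 < r → r • x ∈ T)
    (hw : ∀ e : E, ‖e‖ = 1 → ∃ x ∈ T, x ≠ 0 ∧ ∀ c : ℝ, 0 < c → x ≠ c • e)
    {v : E} (hv : ‖v‖ ≤ 1) (hvT : v ∉ T) :
    ∃ e ∈ T, ‖e‖ = 1 ∧ v + (3 : ℝ) • e ∉ T := by
  classical
  have hnorm : ∀ x ∈ T, x ≠ 0 → (‖x‖⁻¹ • x) ∈ T ∩ sphere (0 : E) 1 := by
    intro x hx hx0
    have h1 : 0 < ‖x‖ := norm_pos_iff.2 hx0
    refine ⟨hsm x hx _ (by positivity), ?_⟩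
    rw [mem_sphere_zero_iff_norm, norm_smul, norm_inv, norm_norm, inv_mul_cancel₀ h1.ne']
  have hcomp : IsCompact (T ∩ sphere (0 : E) 1) := (isCompact_sphere (0 : E) 1).inter_left hcl
  have hne : (T ∩ sphere (0 : E) 1).Nonempty := by
    obtain ⟨e, he⟩ : ∃ e : E, ‖e‖ = 1 := ⟨EuclideanSpace.single 0 1, by simp⟩
    obtain ⟨x, hx, hx0, _⟩ := hw e he
    exact ⟨_, hnorm x hx hx0⟩
  obtain ⟨e, ⟨heT, he1⟩, hmax⟩ := hcomp.exists_isMaxOn hne
    (f := fun e : E => inner ℝ e v) (by fun_prop)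
  rw [mem_sphere_zero_iff_norm] at he1
  refine ⟨e, heT, he1, fun hin => ?_⟩
  set m : ℝ := inner ℝ e v with hm
  set w : E := v + (3 : ℝ) • e with hwd
  have hmabs : |m| ≤ ‖v‖ := by
    have := abs_real_inner_le_norm e v
    rw [he1, one_mul] at this
    exact this
  have hm1 := abs_le.1 (hmabs.trans hv)
  have hW2 : ‖w‖ ^ 2 = ‖v‖ ^ 2 + 6 * m + 9 := by
    rw [hwd, norm_add_sq_real, norm_smul, inner_smul_right, real_inner_comm, he1]
    norm_num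
    ring
  have hWpos : 2 ≤ ‖w‖ := by
    have h1 : ‖(3 : ℝ) • e‖ = 3 := by rw [norm_smul, he1]; norm_num
    have h2 : ‖(3 : ℝ) • e‖ ≤ ‖w‖ + ‖v‖ := by
      have : (3 : ℝ) • e = w - v := by rw [hwd]; abel
      rw [this]; exact norm_sub_le _ _
    linarith
  have hw0 : w ≠ 0 := norm_pos_iff.1 (by linarith)
  have h1 := hmax (hnorm w hin hw0)
  simp only [mem_setOf_eq] at h1
  rw [inner_smul_left] at h1
  have h2 : inner ℝ w v = ‖v‖ ^ 2 + 3 * m := by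
    rw [hwd, inner_add_left, inner_smul_left, real_inner_self_eq_norm_sq]
    simp [hm]
  rw [h2] at h1
  have h3 : ‖v‖ ^ 2 + 3 * m ≤ m * ‖w‖ := by
    have h4 : (‖w‖)⁻¹ * (‖v‖ ^ 2 + 3 * m) ≤ m := by simpa using h1
    rw [inv_mul_le_iff₀ (by linarith)] at h4
    linarith
  have hm2 : m ^ 2 ≤ ‖v‖ ^ 2 := by
    rw [← sq_abs m]; exact pow_le_pow_left₀ (abs_nonneg m) hmabs 2
  have hge : m + 3 ≤ ‖w‖ := by
    by_contra hcon
    push Not at hcon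
    nlinarith [norm_nonneg w]
  have hd : ‖v‖ ^ 2 - m ^ 2 = 0 := by
    by_contra hcon
    have hpos : 0 < ‖v‖ ^ 2 - m ^ 2 := lt_of_le_of_ne (by linarith) (Ne.symm hcon)
    have e1 : (‖w‖ - (m + 3)) * (‖w‖ + (m + 3)) = ‖v‖ ^ 2 - m ^ 2 := by nlinarith
    have e2 : ‖v‖ ^ 2 - m ^ 2 ≤ m * (‖w‖ - (m + 3)) := by nlinarith
    have e3 : 0 ≤ ‖w‖ - (m + 3) := by linarith
    nlinarith
  have hveq : v = m • e := by
    have : ‖v - m • e‖ ^ 2 = 0 := by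
      rw [norm_sub_sq_real, norm_smul, inner_smul_right, real_inner_comm, he1, ← hm]
      rw [mul_one, Real.norm_eq_abs, sq_abs]
      nlinarith
    have h5 : ‖v - m • e‖ = 0 := by nlinarith [norm_nonneg (v - m • e)]
    exact sub_eq_zero.1 (norm_eq_zero.1 h5)
  rcases lt_trichotomy m 0 with hneg | hzero | hpos
  · obtain ⟨x, hx, hx0, hxc⟩ := hw e he1
    have hxn : 0 < ‖x‖ := norm_pos_iff.2 hx0
    have h5 := hmax (hnorm x hx hx0)
    simp only [mem_setOf_eq] at h5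
    have h6 : inner ℝ (‖x‖⁻¹ • x) v = m * inner ℝ (‖x‖⁻¹ • x) e := by
      rw [hveq, inner_smul_right]
    rw [h6] at h5
    have h7 : 1 ≤ inner ℝ (‖x‖⁻¹ • x) e := by
      by_contra hcon
      push Not at hcon
      nlinarith
    have h8 : ‖(‖x‖⁻¹ • x)‖ = 1 := mem_sphere_zero_iff_norm.1 (hnorm x hx hx0).2
    have h9 : ‖(‖x‖⁻¹ • x) - e‖ ^ 2 ≤ 0 := by
      rw [norm_sub_sq_real, h8, he1]
      linarith
    have h10 : ‖(‖x‖⁻¹ • x) - e‖ = 0 := by nlinarith [norm_nonneg ((‖x‖⁻¹ • x) - e)]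
    have h11 : ‖x‖⁻¹ • x = e := sub_eq_zero.1 (norm_eq_zero.1 h10)
    refine hxc ‖x‖ hxn ?_
    rw [← h11, smul_smul, mul_inv_cancel₀ hxn.ne', one_smul]
  · rw [hzero, zero_smul] at hveq
    exact hvT (hveq ▸ h0)
  · exact hvT (hveq ▸ hsm e heT m hpos)

/-- `A'` is an admissible enlargement of `A` at scale `δ` -/
def Adm (A : Set E) (q : E) (δ : ℝ) (A' : Set E) : Prop :=
  Convex ℝ A' ∧ A ⊆ A' ∧ A' \ A ⊆ closedBall q δ

lemma L1 {A : Set E} {q : E} (hq : q ∈ A)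
    (hw : ∀ e : E, ‖e‖ = 1 → ∃ x ∈ closure (T0 A q), x ≠ 0 ∧ ∀ c : ℝ, 0 < c → x ≠ c • e)
    (hA : Convex ℝ A)
    {v0 : E} (hv0 : ‖v0‖ ≤ 1) (hvT : v0 ∉ closure (T0 A q)) :
    ∃ U ∈ 𝓝 v0, ∃ δ1 : ℝ, 0 < δ1 ∧ ∀ δ : ℝ, 0 < δ → δ ≤ δ1 → ∀ A' : Set E, Adm A q δ A' →
      ∀ v ∈ U, q + δ • v ∉ A' := by
  obtain ⟨e, heT, he1, heN⟩ := far_dir isClosed_closure (subset_closure (zero_mem_T0 hq))
    (fun x hx r hr => T_smul hx hr) hw hv0 hvT
  obtain ⟨ρ0, hρ0, hball⟩ := Metric.isOpen_iff.1 isClosed_closure.isOpen_compl _ heN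
  set ρ : ℝ := min ρ0 1 with hρd
  have hρ : 0 < ρ := lt_min hρ0 one_pos
  have hρ1 : ρ ≤ 1 := min_le_right _ _
  have hρle : ρ ≤ ρ0 := min_le_left _ _
  obtain ⟨e', he'T, he'd⟩ := Metric.mem_closure_iff.1 heT (ρ / 12) (by positivity)
  obtain ⟨δ1, hδ1, hR⟩ := T0_smul he'T (r := 24 / ρ) (by positivity)
  refine ⟨ball v0 (ρ / 4), ball_mem_nhds _ (by positivity), δ1, hδ1, ?_⟩
  rintro δ hδ hδ1' A' ⟨hc, hsub, hdiff⟩ v hv hvA
  rw [mem_ball, dist_eq_norm] at hv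
  have hy : q + δ • ((24 / ρ) • e') ∈ A' := hsub (mem_of_le hA hq hδ hδ1' hR)
  have h1 := hc hvA hy (by linarith : (0 : ℝ) ≤ 1 - ρ / 8) (by positivity : (0 : ℝ) ≤ ρ / 8) (by ring)
  have hx : (1 - ρ / 8) • (q + δ • v) + (ρ / 8) • (q + δ • ((24 / ρ) • e')) =
      q + δ • ((1 - ρ / 8) • v + (3 : ℝ) • e') := by
    have e3 : (ρ / 8) * (24 / ρ) = 3 := by field_simp; norm_num
    have e4 : (ρ / 8) • (δ • ((24 / ρ) • e')) = δ • ((3 : ℝ) • e') := by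
      rw [smul_comm (ρ / 8) δ, smul_smul (ρ / 8), e3]
    rw [smul_add, smul_add, e4, smul_add, smul_comm (1 - ρ / 8) δ, sub_smul 1 (ρ / 8) q, one_smul]
    abel
  rw [hx] at h1
  set x : E := (1 - ρ / 8) • v + (3 : ℝ) • e' with hxd
  have hvn : ‖v‖ ≤ 5 / 4 := by
    have : ‖v‖ ≤ ‖v - v0‖ + ‖v0‖ := by
      have := norm_add_le (v - v0) v0
      simpa using this
    linarith
  have hen : 11 / 12 ≤ ‖e'‖ := by
    have h2 : ‖e‖ ≤ ‖e - e'‖ + ‖e'‖ := by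
      have := norm_add_le (e - e') e'
      simpa using this
    rw [dist_eq_norm] at he'd
    linarith
  have hv' : ‖(1 - ρ / 8) • v‖ ≤ 5 / 4 := by
    rw [norm_smul, Real.norm_eq_abs, abs_of_nonneg (by linarith)]
    nlinarith [norm_nonneg v]
  have hxn : 1 < ‖x‖ := by
    have h2 : ‖(3 : ℝ) • e'‖ ≤ ‖x‖ + ‖(1 - ρ / 8) • v‖ := by
      have : (3 : ℝ) • e' = x - (1 - ρ / 8) • v := by rw [hxd]; abel
      rw [this]; exact norm_sub_le _ _
    rw [norm_smul] at h2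
    norm_num at h2
    linarith
  have hxA : q + δ • x ∈ A := by
    by_contra hcon
    have h2 := hdiff ⟨h1, hcon⟩
    rw [mem_closedBall, dist_eq_norm, add_sub_cancel_left, norm_smul, Real.norm_eq_abs,
      abs_of_pos hδ] at h2
    nlinarith
  have hxT : x ∈ closure (T0 A q) := subset_closure ⟨δ, hδ, hxA⟩
  refine hball ?_ hxT
  rw [mem_ball, dist_eq_norm]
  have h5 : x - (v0 + (3 : ℝ) • e) = (v - v0) + (-((ρ / 8) • v)) + (3 : ℝ) • (e' - e) := by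
    rw [hxd, sub_smul, one_smul, smul_sub]
    abel
  have h6 : ‖(ρ / 8) • v‖ ≤ ρ / 8 * (5 / 4) := by
    rw [norm_smul, Real.norm_eq_abs, abs_of_pos (by positivity)]
    exact mul_le_mul_of_nonneg_left hvn (by positivity)
  have h7 : ‖(3 : ℝ) • (e' - e)‖ < ρ / 4 := by
    rw [norm_smul, Real.norm_eq_abs, abs_of_pos (by norm_num : (0 : ℝ) < 3), norm_sub_rev]
    rw [dist_eq_norm] at he'd
    linarith
  rw [h5]
  have h8 := norm_add_le ((v - v0) + (-((ρ / 8) • v))) ((3 : ℝ) • (e' - e))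
  have h9 := norm_add_le (v - v0) (-((ρ / 8) • v))
  rw [norm_neg] at h9
  linarith

lemma L2 {A : Set E} {q : E} (hq : q ∈ A)
    (hw : ∀ e : E, ‖e‖ = 1 → ∃ x ∈ closure (T0 A q), x ≠ 0 ∧ ∀ c : ℝ, 0 < c → x ≠ c • e)
    (hA : Convex ℝ A) {η : ℝ} (hη : 0 < η) :
    ∃ δ1 : ℝ, 0 < δ1 ∧ ∀ δ : ℝ, 0 < δ → δ ≤ δ1 → ∀ A' : Set E, Adm A q δ A' →
      ∀ v : E, ‖v‖ ≤ 1 → η ≤ infDist v (closure (T0 A q)) → q + δ • v ∉ A' := by
  have hK : IsCompact (closedBall (0 : E) 1 ∩ {v | η ≤ infDist v (closure (T0 A q))}) :=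
    (isCompact_closedBall (0 : E) 1).inter_right
      (isClosed_le continuous_const (continuous_infDist_pt _))
  have key : ∃ δ1 : ℝ, 0 < δ1 ∧ ∀ δ : ℝ, 0 < δ → δ ≤ δ1 → ∀ A' : Set E, Adm A q δ A' →
      ∀ v ∈ closedBall (0 : E) 1 ∩ {v | η ≤ infDist v (closure (T0 A q))}, q + δ • v ∉ A' := by
    refine hK.induction_on (p := fun s => ∃ δ1 : ℝ, 0 < δ1 ∧ ∀ δ : ℝ, 0 < δ → δ ≤ δ1 →
      ∀ A' : Set E, Adm A q δ A' → ∀ v ∈ s, q + δ • v ∉ A') ?_ ?_ ?_ ?_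
    · exact ⟨1, one_pos, fun _ _ _ _ _ v hv => absurd hv (notMem_empty v)⟩
    · rintro s t hst ⟨d, hd, h⟩
      exact ⟨d, hd, fun δ h1 h2 A' h3 v hv => h δ h1 h2 A' h3 v (hst hv)⟩
    · rintro s t ⟨d, hd, h⟩ ⟨d', hd', h'⟩
      refine ⟨min d d', lt_min hd hd', fun δ h1 h2 A' h3 v hv => ?_⟩
      rcases hv with hv | hv
      · exact h δ h1 (h2.trans (min_le_left _ _)) A' h3 v hv
      · exact h' δ h1 (h2.trans (min_le_right _ _)) A' h3 v hv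
    · rintro v0 ⟨hv1, hv2⟩
      have hvT : v0 ∉ closure (T0 A q) := by
        intro hin
        have := infDist_zero_of_mem hin
        rw [mem_setOf_eq, this] at hv2
        linarith
      obtain ⟨U, hU, d, hd, h⟩ := L1 hq hw hA (by simpa using hv1) hvT
      exact ⟨U, mem_nhdsWithin_of_mem_nhds hU, d, hd, h⟩
  obtain ⟨d, hd, h⟩ := key
  exact ⟨d, hd, fun δ h1 h2 A' h3 v hv1 hv2 => h δ h1 h2 A' h3 v ⟨by simpa using hv1, hv2⟩⟩

end

end Pool.Agent.TH605.CSC
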