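import Pool.Agent.TH605.CSC.Cone
set_option autoImplicit false

/-!
Edges of the images of a curve whose images of subintervals are convex.
-/

namespace Pool.Agent.TH605.CSC

open MeasureTheory Metric Set Filter Topology

noncomputable section

lemma edge_right {f : ℝ → E} {a b c : ℝ} (hf : ContinuousOn f (Icc a c))
    (hab : a ≤ b) (hconv : ∀ t ∈ Ioc b c, Convex ℝ (f '' Icc a t)) (g : E →L[ℝ] ℝ) {k : ℝ} {x y : E}
    (hx : x ∈ f '' Icc a b) (hy : y ∈ f '' Icc a b) (hxy : x ≠ y) (hgx : g x = k) (hgy : g y = k)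
    (hle : ∀ s ∈ Icc a b, g (f s) ≤ k) : ∀ s ∈ Icc a c, g (f s) ≤ k := by
  by_contra hcon
  push Not at hcon
  obtain ⟨t0, ht0, hgt0⟩ := hcon
  have hbt0 : b < t0 := by
    by_contra h
    exact absurd (hle t0 ⟨ht0.1, not_lt.1 h⟩) (not_le.2 hgt0)
  set B : Set ℝ := {t | t ∈ Ioc b c ∧ k < g (f t)} with hB
  have hBne : B.Nonempty := ⟨t0, ⟨hbt0, ht0.2⟩, hgt0⟩
  have hBbdd : BddBelow B := ⟨b, fun t ht => ht.1.1.le⟩
  set β := sInf B with hβ
  have hbβ : b ≤ β := le_csInf hBne fun t ht => ht.1.1.le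
  have hβc : β ≤ c := (csInf_le hBbdd hBne.choose_spec).trans hBne.choose_spec.1.2
  have hβI : β ∈ Icc a c := ⟨hab.trans hbβ, hβc⟩
  have hlt : ∀ s ∈ Icc a c, k < g (f s) → β ≤ s := by
    intro s hs h
    refine csInf_le hBbdd ⟨⟨?_, hs.2⟩, h⟩
    by_contra h2
    exact absurd (hle s ⟨hs.1, not_lt.1 h2⟩) (not_le.2 h)
  have key : ∀ x ∈ f '' Icc a b, g x = k → x = f β := by
    intro x hx hgx
    refine eq_of_forall_dist_le fun r hr => ?_
    obtain ⟨η, hη, hc⟩ := Metric.continuousOn_iff.1 hf β hβI r hr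
    obtain ⟨t, htB, ht⟩ := exists_lt_of_csInf_lt hBne (show sInf B < β + η by linarith)
    have hcv := hconv t htB.1
    have hxt : x ∈ f '' Icc a t := image_mono (Icc_subset_Icc_right htB.1.1.le) hx
    have hft : f t ∈ f '' Icc a t := ⟨t, ⟨hab.trans htB.1.1.le, le_rfl⟩, rfl⟩
    have hlim : Tendsto (fun l : ℝ => dist (x + l • (f t - x)) (f β)) (𝓝[>] 0)
        (𝓝 (dist x (f β))) := by
      have h1 : Continuous (fun l : ℝ => dist (x + l • (f t - x)) (f β)) := by fun_prop
      have h2 := h1.tendsto 0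
      simp only [zero_smul, add_zero] at h2
      exact h2.mono_left nhdsWithin_le_nhds
    refine le_of_tendsto hlim ?_
    filter_upwards [Ioo_mem_nhdsGT (zero_lt_one : (0 : ℝ) < 1)] with l hl
    have hz : x + l • (f t - x) ∈ f '' Icc a t := by
      have := hcv hxt hft (by linarith [hl.2] : 0 ≤ 1 - l) hl.1.le (by ring)
      have e : (1 - l) • x + l • f t = x + l • (f t - x) := by
        rw [sub_smul, one_smul, smul_sub]; abel
      rwa [e] at this
    obtain ⟨s, hs, hsz⟩ := hz
    have hgz : k < g (f s) := by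
      rw [hsz, map_add, map_smul, map_sub, hgx, smul_eq_mul]
      nlinarith [hl.1, htB.2]
    have hsc : s ∈ Icc a c := ⟨hs.1, hs.2.trans htB.1.2⟩
    have h3 := hlt s hsc hgz
    rw [← hsz]
    refine (hc s hsc ?_).le
    rw [Real.dist_eq, abs_lt]
    constructor <;> linarith [hs.2]
  exact hxy ((key x hx hgx).trans (key y hy hgy).symm)

lemma image_neg' (f : ℝ → E) (u v : ℝ) : (fun s => f (-s)) '' Icc (-v) (-u) = f '' Icc u v := by
  ext z
  constructor
  · rintro ⟨s, hs, rfl⟩
    exact ⟨-s, ⟨by linarith [hs.2], by linarith [hs.1]⟩, rfl⟩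
  · rintro ⟨s, hs, rfl⟩
    exact ⟨-s, ⟨by linarith [hs.2], by linarith [hs.1]⟩, by simp⟩

lemma edge_left {f : ℝ → E} {a b c : ℝ} (hf : ContinuousOn f (Icc c b))
    (hab : a ≤ b) (hconv : ∀ t ∈ Ico c a, Convex ℝ (f '' Icc t b)) (g : E →L[ℝ] ℝ) {k : ℝ} {x y : E}
    (hx : x ∈ f '' Icc a b) (hy : y ∈ f '' Icc a b) (hxy : x ≠ y) (hgx : g x = k) (hgy : g y = k)
    (hle : ∀ s ∈ Icc a b, g (f s) ≤ k) : ∀ s ∈ Icc c b, g (f s) ≤ k := by
  have h := edge_right (f := fun s => f (-s)) (a := -b) (b := -a) (c := -c) ?_ (by linarith) ?_ g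
    (x := x) (y := y) (by rwa [image_neg']) (by rwa [image_neg']) hxy hgx hgy ?_
  · intro s hs
    have := h (-s) ⟨by linarith [hs.2], by linarith [hs.1]⟩
    simpa using this
  · refine hf.comp continuous_neg.continuousOn ?_
    intro s hs
    exact ⟨by linarith [hs.2], by linarith [hs.1]⟩
  · intro t ht
    have := hconv (-t) ⟨by linarith [ht.2], by linarith [ht.1]⟩
    rwa [← image_neg', neg_neg] at this
  · intro s hs
    exact hle (-s) ⟨by linarith [hs.2], by linarith [hs.1]⟩

/-- A supporting functional at a point of a convex set with interior points which is not interior. -/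
lemma support {A : Set E} (hA : Convex ℝ A) (hint : (interior A).Nonempty) {p : E}
    (hp : p ∉ interior A) : ∃ g : E →L[ℝ] ℝ, (∀ z ∈ A, g z ≤ g p) ∧ ∃ z ∈ A, g z < g p := by
  obtain ⟨g, hg⟩ := geometric_hahn_banach_open_point hA.interior isOpen_interior hp
  refine ⟨g, fun z hz => ?_, ?_⟩
  · have h1 : z ∈ closure (interior A) := by
      rw [hA.closure_interior_eq_closure_of_nonempty_interior hint]
      exact subset_closure hz
    have h2 : closure (interior A) ⊆ {z | g z ≤ g p} :=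
      closure_minimal (fun z hz => (hg z hz).le) (isClosed_le g.continuous continuous_const)
    exact h2 h1
  · obtain ⟨z, hz⟩ := hint
    exact ⟨z, interior_subset hz, hg z hz⟩

/-- A maximum point of a functional that takes a smaller value is not interior. -/
lemma not_interior {K : Set E} {g : E →L[ℝ] ℝ} {p z : E} (hK : ∀ w ∈ K, g w ≤ g p)
    (hz : g z < g p) : p ∉ interior K := by
  intro hp
  have h1 : Continuous (fun l : ℝ => p + l • (p - z)) := by fun_prop
  have h2 : Tendsto (fun l : ℝ => p + l • (p - z)) (𝓝[>] 0) (𝓝 p) := by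
    have := h1.tendsto 0
    simp only [zero_smul, add_zero] at this
    exact this.mono_left nhdsWithin_le_nhds
  obtain ⟨l, hl1, hl2⟩ := ((h2.eventually (mem_interior_iff_mem_nhds.1 hp)).and
    self_mem_nhdsWithin).exists
  have h3 := hK _ hl1
  have hl3 : 0 < l := hl2
  rw [map_add, map_smul, map_sub, smul_eq_mul] at h3
  nlinarith

variable {f : ℝ → E}

/-- The main lemma on edges. -/
theorem edge_core (hf : ContinuousOn f (Icc 0 1))
    (h : ∀ a b : ℝ, 0 ≤ a → a < b → b ≤ 1 → Convex ℝ (f '' Icc a b))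
    {a b : ℝ} (ha : 0 ≤ a) (hab : a < b) (hb : b ≤ 1) (g : E →L[ℝ] ℝ) {k : ℝ} {x y : E}
    (hx : x ∈ f '' Icc a b) (hy : y ∈ f '' Icc a b) (hxy : x ≠ y) (hgx : g x = k) (hgy : g y = k)
    (hle : ∀ z ∈ f '' Icc a b, g z ≤ k) : ∀ z ∈ f '' Icc 0 1, g z ≤ k := by
  have h1 : ∀ s ∈ Icc a 1, g (f s) ≤ k :=
    edge_right (hf.mono (Icc_subset_Icc_left ha)) hab.le
      (fun t ht => h a t ha (hab.trans ht.1) ht.2) g hx hy hxy hgx hgy
      (fun s hs => hle _ ⟨s, hs, rfl⟩)
  have h2 : ∀ s ∈ Icc 0 1, g (f s) ≤ k :=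
    edge_left hf (hab.le.trans hb) (fun t ht => h t 1 ht.1 (ht.2.trans_le (hab.le.trans hb)) le_rfl) g
      (image_mono (Icc_subset_Icc_right hb) hx) (image_mono (Icc_subset_Icc_right hb) hy)
      hxy hgx hgy h1
  rintro _ ⟨s, hs, rfl⟩
  exact h2 s hs

/-- Every boundary segment of an image lies on a supporting line of the whole image; images in the
interior are strictly convex. -/
theorem edges (hf : ContinuousOn f (Icc 0 1))
    (h : ∀ a b : ℝ, 0 ≤ a → a < b → b ≤ 1 → Convex ℝ (f '' Icc a b) ∧ 0 < volume (f '' Icc a b))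
    {a b : ℝ} (ha : 0 ≤ a) (hab : a < b) (hb : b ≤ 1) :
    (∀ x y : E, x ≠ y → segment ℝ x y ⊆ frontier (f '' Icc a b) →
      segment ℝ x y ⊆ frontier (f '' Icc 0 1)) ∧
    (f '' Icc a b ⊆ interior (f '' Icc 0 1) → StrictConvex ℝ (f '' Icc a b)) := by
  have hA := (h a b ha hab hb).1
  have hcl : IsClosed (f '' Icc a b) :=
    (isCompact_Icc.image_of_continuousOn (hf.mono (Icc_subset_Icc ha hb))).isClosed
  have hint : (interior (f '' Icc a b)).Nonempty := by
    by_contra hc
    rw [not_nonempty_iff_eq_empty] at hc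
    refine (h a b ha hab hb).2.ne' (measure_mono_null ?_ (hA.addHaar_frontier volume))
    rw [frontier, hc, sdiff_empty]
    exact subset_closure
  have hsub : f '' Icc a b ⊆ f '' Icc 0 1 := image_mono (Icc_subset_Icc ha hb)
  have key : ∀ x ∈ f '' Icc a b, ∀ y ∈ f '' Icc a b, x ≠ y → ∀ s t : ℝ, 0 < s → 0 < t → s + t = 1 →
      s • x + t • y ∉ interior (f '' Icc a b) →
      ∃ g : E →L[ℝ] ℝ, g x = g y ∧ (∀ z ∈ f '' Icc 0 1, g z ≤ g x) ∧ ∃ z, g z < g x := by
    intro x hx y hy hxy s t hs ht hst hp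
    obtain ⟨g, hg1, z, hz, hgz⟩ := support hA hint hp
    have e : g (s • x + t • y) = s * g x + t * g y := by
      rw [map_add, map_smul, map_smul, smul_eq_mul, smul_eq_mul]
    have h1 := hg1 x hx
    have h2 := hg1 y hy
    have hs' : s = 1 - t := by linarith
    have h3 : g x = g y := by
      rw [e, hs'] at h1 h2
      have h4 : t * (g x - g y) ≤ 0 := by nlinarith
      have h5 : 0 ≤ (1 - t) * (g x - g y) := by nlinarith
      have h6 : g x - g y ≤ 0 := by
        by_contra hc
        push Not at hc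
        have := mul_pos ht hc
        linarith
      have h7 : 0 ≤ g x - g y := by
        by_contra hc
        push Not at hc
        have : (1 - t) * (g x - g y) < 0 := mul_neg_of_pos_of_neg (by linarith) hc
        linarith
      linarith
    have h8 : g (s • x + t • y) = g x := by
      rw [e, ← h3, ← add_mul, hst, one_mul]
    rw [h8] at hg1 hgz
    refine ⟨g, h3, ?_, z, hgz⟩
    exact edge_core hf (fun a b ha hab hb => (h a b ha hab hb).1) ha hab hb g hx hy hxy rfl h3.symm hg1
  constructor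
  · intro x y hxy hseg
    have hA2 : segment ℝ x y ⊆ f '' Icc a b := hseg.trans (hcl.frontier_subset)
    have hm : (1 / 2 : ℝ) • x + (1 / 2 : ℝ) • y ∈ segment ℝ x y :=
      ⟨1 / 2, 1 / 2, by norm_num, by norm_num, by norm_num, rfl⟩
    obtain ⟨g, h1, h2, z, hz⟩ := key x (hA2 (left_mem_segment ℝ x y)) y
      (hA2 (right_mem_segment ℝ x y)) hxy (1 / 2) (1 / 2) (by norm_num) (by norm_num) (by norm_num)
      (hseg hm).2
    intro w hw
    have hgw : g w = g x := by
      obtain ⟨s, t, hs, ht, hst, rfl⟩ := hw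
      rw [map_add, map_smul, map_smul, ← h1, ← add_smul, hst, one_smul]
    refine ⟨subset_closure (hsub (hA2 hw)), ?_⟩
    rw [← hgw] at h2 hz
    exact not_interior h2 hz
  · intro hin x hx y hy hxy s t hs ht hst
    by_contra hp
    obtain ⟨g, h1, h2, z, hz⟩ := key x hx y hy hxy s t hs ht hst hp
    exact not_interior h2 hz (hin hx)

end

end Pool.Agent.TH605.CSC
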