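import Pool.Agent.TH605.CSC.Overlap
set_option autoImplicit false

/-!
A generic point of the image is visited uncountably often.
-/

namespace Pool.Agent.TH605.CSC

open MeasureTheory Metric Set Filter Topology

noncomputable section

variable {f : ℝ → E}

/-- the points with two preimages in `[p, q]` -/
def DD (f : ℝ → E) (p q : ℝ) : Set E :=
  {z | ∃ u1 ∈ Icc p q, ∃ u2 ∈ Icc p q, u1 < u2 ∧ f u1 = z ∧ f u2 = z}

theorem two_preimages (hf : ContinuousOn f (Icc 0 1))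
    (h : ∀ a b : ℝ, 0 ≤ a → a < b → b ≤ 1 → Convex ℝ (f '' Icc a b) ∧ 0 < volume (f '' Icc a b))
    {p q : ℝ} (hp : 0 ≤ p) (hpq : p < q) (hq : q ≤ 1) {V : Set E} (hV : IsOpen V)
    (hne : (V ∩ f '' Icc p q).Nonempty) :
    ∃ W : Set E, IsOpen W ∧ W.Nonempty ∧ W ⊆ V ∧ W ⊆ DD f p q := by
  obtain ⟨_, hz, s, hs, rfl⟩ := hne
  have hc : ContinuousOn f (Icc p q) := hf.mono (Icc_subset_Icc hp hq)
  have hnb : (𝓝[Ioo p q] s).NeBot := by
    rw [← mem_closure_iff_nhdsWithin_neBot, closure_Ioo hpq.ne]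
    exact hs
  have h1 : ∀ᶠ x in 𝓝[Ioo p q] s, f x ∈ V :=
    ((hc s hs).mono Ioo_subset_Icc_self).eventually (hV.mem_nhds hz)
  obtain ⟨s', hs'V, hs'⟩ := (h1.and self_mem_nhdsWithin).exists
  have hca : ContinuousAt f s' := (hc s' (Ioo_subset_Icc_self hs')).continuousAt
    (Icc_mem_nhds hs'.1 hs'.2)
  have h2 : f ⁻¹' V ∩ Ioo p q ∈ 𝓝 s' :=
    inter_mem (hca (hV.mem_nhds hs'V)) (Ioo_mem_nhds hs'.1 hs'.2)
  obtain ⟨ε, hε, hsub⟩ := Metric.nhds_basis_closedBall.mem_iff.1 h2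
  rw [Real.closedBall_eq_Icc] at hsub
  have hl : s' - ε ∈ Ioo p q := (hsub ⟨le_rfl, by linarith⟩).2
  have hr : s' + ε ∈ Ioo p q := (hsub ⟨by linarith, le_rfl⟩).2
  have hov := overlap hf h (a := s' - ε) (t := s') (b := s' + ε) (hp.trans hl.1.le) (by linarith)
    (by linarith) (hr.2.le.trans hq)
  refine ⟨interior (f '' Icc (s' - ε) s' ∩ f '' Icc s' (s' + ε)) ∩ {f s'}ᶜ,
    isOpen_interior.inter isOpen_compl_singleton, ?_, ?_, ?_⟩
  · haveI : (𝓝[≠] (f s')).NeBot := Module.punctured_nhds_neBot ℝ E (f s')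
    exact (dense_compl_singleton (f s')).inter_open_nonempty _ isOpen_interior hov
  · rintro w ⟨hw, -⟩
    obtain ⟨u, hu, rfl⟩ := (interior_subset hw).1
    exact (hsub ⟨hu.1, hu.2.trans (by linarith)⟩).1
  · rintro w ⟨hw, hw2⟩
    obtain ⟨u1, hu1, h1⟩ := (interior_subset hw).1
    obtain ⟨u2, hu2, h2⟩ := (interior_subset hw).2
    have hlt1 : u1 < s' := lt_of_le_of_ne hu1.2 (fun e => hw2 (by rw [← h1, e]; rfl))
    refine ⟨u1, ⟨hl.1.le.trans hu1.1, (hu1.2.trans hs'.2.le)⟩, u2,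
      ⟨hs'.1.le.trans hu2.1, hu2.2.trans hr.2.le⟩, hlt1.trans_le hu2.1, h1, h2⟩

theorem generic (hf : ContinuousOn f (Icc 0 1))
    (h : ∀ a b : ℝ, 0 ≤ a → a < b → b ≤ 1 → Convex ℝ (f '' Icc a b) ∧ 0 < volume (f '' Icc a b)) :
    ∀ᶠ z in residual E, z ∈ f '' Icc 0 1 →
      Perfect (Icc 0 1 ∩ f ⁻¹' {z}) ∧ ¬ (Icc 0 1 ∩ f ⁻¹' {z}).Countable := by
  have hres : ∀ᶠ z in residual E, ∀ pq : ℚ × ℚ, (0 : ℝ) ≤ pq.1 → (pq.1 : ℝ) < pq.2 →
      (pq.2 : ℝ) ≤ 1 → z ∈ (f '' Icc (pq.1 : ℝ) pq.2)ᶜ ∪ interior (DD f pq.1 pq.2) := by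
    rw [eventually_countable_forall]
    rintro ⟨p, q⟩
    by_cases hpq : (0 : ℝ) ≤ p ∧ (p : ℝ) < q ∧ (q : ℝ) ≤ 1
    · obtain ⟨hp, hpq, hq⟩ := hpq
      have ho : IsOpen ((f '' Icc (p : ℝ) q)ᶜ ∪ interior (DD f p q)) :=
        (im_compact hf hp hq).isClosed.isOpen_compl.union isOpen_interior
      have hd : Dense ((f '' Icc (p : ℝ) q)ᶜ ∪ interior (DD f p q)) := by
        rw [dense_iff_inter_open]
        intro U hU hne
        by_cases hcase : (U ∩ f '' Icc (p : ℝ) q).Nonempty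
        · obtain ⟨W, hW, ⟨w, hw⟩, hWU, hWD⟩ := two_preimages hf h hp hpq hq hU hcase
          exact ⟨w, hWU hw, Or.inr (interior_maximal hWD hW hw)⟩
        · obtain ⟨u, hu⟩ := hne
          exact ⟨u, hu, Or.inl fun hu2 => hcase ⟨u, hu, hu2⟩⟩
      filter_upwards [residual_of_dense_open ho hd] with z hz _ _ _
      exact hz
    · exact Eventually.of_forall fun z h1 h2 h3 => absurd ⟨h1, h2, h3⟩ hpq
  filter_upwards [hres] with z hz hzK
  have hperf : Perfect (Icc 0 1 ∩ f ⁻¹' {z}) := by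
    refine ⟨hf.preimage_isClosed_of_isClosed isClosed_Icc isClosed_singleton, ?_⟩
    rintro s ⟨hs, hsz⟩
    rw [accPt_iff_nhds]
    intro U hU
    obtain ⟨ε, hε, hball⟩ := Metric.mem_nhds_iff.1 hU
    obtain ⟨p, hp0, hps, hpε⟩ : ∃ p : ℚ, (0 : ℝ) ≤ p ∧ ((p : ℝ) < s ∨ (p = 0 ∧ s = 0)) ∧
        s - ε < p := by
      rcases hs.1.eq_or_lt with h0 | h0
      · exact ⟨0, by simp, Or.inr ⟨rfl, h0.symm⟩, by rw [← h0]; simpa using hε⟩
      · obtain ⟨p, hp1, hp2⟩ := exists_rat_btwn (max_lt h0 (by linarith : s - ε < s))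
        exact ⟨p, (le_max_left _ _).trans hp1.le, Or.inl hp2, (le_max_right _ _).trans_lt hp1⟩
    obtain ⟨q, hq1, hqs, hqε⟩ : ∃ q : ℚ, (q : ℝ) ≤ 1 ∧ (s < (q : ℝ) ∨ (q = 1 ∧ s = 1)) ∧
        (q : ℝ) < s + ε := by
      rcases hs.2.eq_or_lt with h0 | h0
      · exact ⟨1, by simp, Or.inr ⟨rfl, h0⟩, by rw [h0]; simpa using hε⟩
      · obtain ⟨q, hq1, hq2⟩ := exists_rat_btwn (lt_min h0 (by linarith : s < s + ε))
        exact ⟨q, hq2.le.trans (min_le_left _ _), Or.inl hq1, hq2.trans_le (min_le_right _ _)⟩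
    have hps' : (p : ℝ) ≤ s := by
      rcases hps with h1 | ⟨h1, h2⟩
      · exact h1.le
      · rw [h1, h2]; simp
    have hqs' : s ≤ (q : ℝ) := by
      rcases hqs with h1 | ⟨h1, h2⟩
      · exact h1.le
      · rw [h1, h2]; simp
    have hpq : (p : ℝ) < q := by
      rcases hps with h1 | ⟨h1, h2⟩
      · exact h1.trans_le hqs'
      · rcases hqs with h3 | ⟨h3, h4⟩
        · exact hps'.trans_lt h3
        · rw [h2] at h4; exact absurd h4 (by norm_num)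
    have hz1 := hz (p, q) hp0 hpq hq1
    have hz2 : z ∈ DD f p q := by
      rcases hz1 with h1 | h1
      · exact absurd ⟨s, ⟨hps', hqs'⟩, hsz⟩ h1
      · exact interior_subset h1
    obtain ⟨u1, hu1, u2, hu2, hlt, e1, e2⟩ := hz2
    have hU1 : ∀ u ∈ Icc (p : ℝ) q, u ∈ U := by
      intro u hu
      apply hball
      rw [mem_ball, Real.dist_eq, abs_lt]
      constructor <;> linarith [hu.1, hu.2]
    have hI : ∀ u ∈ Icc (p : ℝ) q, u ∈ Icc (0 : ℝ) 1 := fun u hu =>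
      ⟨hp0.trans hu.1, hu.2.trans hq1⟩
    by_cases hu : u1 = s
    · exact ⟨u2, ⟨hU1 u2 hu2, hI u2 hu2, e2⟩, fun e => by rw [e, hu] at hlt; exact lt_irrefl _ hlt⟩
    · exact ⟨u1, ⟨hU1 u1 hu1, hI u1 hu1, e1⟩, hu⟩
  refine ⟨hperf, fun hcount => ?_⟩
  obtain ⟨s, hs, hsz⟩ := hzK
  obtain ⟨φ, hφ, -, hinj⟩ := hperf.exists_nat_bool_injection ⟨s, hs, hsz⟩
  have h1 : (range φ).Countable := hcount.mono hφ
  have h2 : Countable (ℕ → Bool) := by
    have h3 : Countable (range φ) := h1.to_subtype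
    exact (Set.rangeFactorization_injective.2 hinj).countable
  obtain ⟨g, hg⟩ := exists_surjective_nat (ℕ → Bool)
  obtain ⟨n, hn⟩ := hg (fun n => !(g n n))
  have := congrFun hn n
  simp at this

end

end Pool.Agent.TH605.CSC
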