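import Pool.Agent.TH605.CSC.Cone
set_option autoImplicit false

/-!
The measure part of the growth lemma.
-/

namespace Pool.Agent.TH605.CSC

open MeasureTheory Metric Set Filter Topology
open scoped ENNReal

noncomputable section

lemma wide_of_interior {A : Set E} {q : E} (hq : q ∈ A) (hint : (interior A).Nonempty) :
    ∀ e : E, ‖e‖ = 1 → ∃ x ∈ closure (T0 A q), x ≠ 0 ∧ ∀ c : ℝ, 0 < c → x ≠ c • e := by
  intro e he
  obtain ⟨p, hp⟩ := hint
  obtain ⟨r, hr, hball⟩ := Metric.isOpen_iff.1 isOpen_interior p hp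
  have hin : ∀ y ∈ ball p r, y - q ∈ T0 A q := by
    intro y hy
    refine ⟨1, one_pos, ?_⟩
    rw [one_smul, add_sub_cancel]
    exact interior_subset (hball hy)
  -- a vector not parallel to `e`
  obtain ⟨f, hf1, hf⟩ : ∃ f : E, ‖f‖ = 1 ∧ inner ℝ e f = 0 := by
    refine ⟨!₂[-(e 1), e 0], ?_, ?_⟩
    · rw [EuclideanSpace.norm_eq] at he ⊢
      rw [Fin.sum_univ_two] at he ⊢
      simp only [Real.norm_eq_abs, sq_abs] at he ⊢
      simp only [PiLp.toLp_apply, Matrix.cons_val_zero, Matrix.cons_val_one]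
      rw [← he]
      congr 1
      ring
    · simp [PiLp.inner_apply, Fin.sum_univ_two]
      ring
  set x0 : E := p - q with hx0
  set x1 : E := p + (r / 2) • f - q with hx1
  have h0 : x0 ∈ T0 A q := hin p (mem_ball_self hr)
  have h1 : x1 ∈ T0 A q := by
    apply hin
    rw [mem_ball, dist_eq_norm, add_sub_cancel_left, norm_smul, hf1, Real.norm_eq_abs,
      abs_of_pos (by positivity)]
    linarith
  by_cases hcase : inner ℝ x0 f = 0
  · refine ⟨x1, subset_closure h1, ?_, ?_⟩
    · intro h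
      have : inner ℝ x1 f = r / 2 := by
        have e1 : x1 = x0 + (r / 2) • f := by rw [hx1, hx0]; abel
        rw [e1, inner_add_left, hcase, inner_smul_left, real_inner_self_eq_norm_sq, hf1]
        simp
      rw [h, inner_zero_left] at this
      linarith
    · intro c hc h
      have : inner ℝ x1 f = r / 2 := by
        have e1 : x1 = x0 + (r / 2) • f := by rw [hx1, hx0]; abel
        rw [e1, inner_add_left, hcase, inner_smul_left, real_inner_self_eq_norm_sq, hf1]
        simp
      rw [h, inner_smul_left, hf] at this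
      simp at this
      linarith
  · refine ⟨x0, subset_closure h0, ?_, ?_⟩
    · intro h
      apply hcase
      rw [h, inner_zero_left]
    · intro c hc h
      apply hcase
      rw [h, inner_smul_left, hf, mul_zero]

/-- The growth lemma: `area (A' \ A) ≤ c δ ^ 2` for all small `δ`. -/
theorem growth {A : Set E} {q : E} (hq : q ∈ A) (hA : Convex ℝ A) (hclA : IsClosed A)
    (hint : (interior A).Nonempty) {c : ℝ≥0∞} (hc : 0 < c) :
    ∃ δ1 : ℝ, 0 < δ1 ∧ ∀ δ : ℝ, 0 < δ → δ ≤ δ1 → ∀ A' : Set E, Adm A q δ A' →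
      volume (A' \ A) ≤ c * ENNReal.ofReal (δ ^ 2) := by
  have hw := wide_of_interior hq hint
  have hc2 : 0 < c / 2 := ENNReal.half_pos hc.ne'
  set T : Set E := closure (T0 A q) with hT
  have hTcl : IsClosed T := isClosed_closure
  have hBfin : volume (closedBall (0 : E) 1) ≠ ∞ := (isCompact_closedBall (0 : E) 1).measure_lt_top.ne
  -- first family
  have hlim1 : Tendsto (fun n : ℕ => volume ({v ∈ closedBall (0 : E) 1 |
      infDist v T < 1 / ((n : ℝ) + 1)} \ T)) atTop (𝓝 0) := by
    have h1 : (⋂ n : ℕ, ({v ∈ closedBall (0 : E) 1 | infDist v T < 1 / ((n : ℝ) + 1)} \ T)) = ∅ := by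
      rw [eq_empty_iff_forall_notMem]
      intro v hv
      rw [mem_iInter] at hv
      have h2 : infDist v T = 0 := by
        refine le_antisymm ?_ infDist_nonneg
        refine ge_of_tendsto' (tendsto_one_div_add_atTop_nhds_zero_nat (𝕜 := ℝ)) fun n => ?_
        exact (hv n).1.2.le
      exact (hv 0).2 ((hTcl.mem_iff_infDist_zero ⟨0, subset_closure (zero_mem_T0 hq)⟩).2 h2)
    have h3 := tendsto_measure_iInter_atTop (μ := (volume : Measure E))
      (s := fun n : ℕ => {v ∈ closedBall (0 : E) 1 | infDist v T < 1 / ((n : ℝ) + 1)} \ T) ?_ ?_ ?_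
    · rw [h1, measure_empty] at h3
      exact h3
    · intro n
      refine (MeasurableSet.diff ?_ hTcl.measurableSet).nullMeasurableSet
      exact (isClosed_closedBall.measurableSet).inter
        (measurableSet_lt (continuous_infDist_pt _).measurable measurable_const)
    · intro n m hnm v hv
      refine ⟨⟨hv.1.1, hv.1.2.trans_le ?_⟩, hv.2⟩
      exact one_div_le_one_div_of_le (by positivity) (by exact_mod_cast Nat.add_le_add_right hnm 1)
    · exact ⟨0, ((measure_mono (fun v hv => hv.1.1)).trans_lt (lt_top_iff_ne_top.2 hBfin)).ne⟩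
  have hlim2 : Tendsto (fun n : ℕ => volume (closedBall (0 : E) 1 ∩
      (T \ {x | q + (1 / ((n : ℝ) + 1)) • x ∈ A}))) atTop (𝓝 0) := by
    have h1 : volume (⋂ n : ℕ, (closedBall (0 : E) 1 ∩
        (T \ {x | q + (1 / ((n : ℝ) + 1)) • x ∈ A}))) = 0 := by
      refine measure_mono_null ?_ ((T0_convex hA hq).addHaar_frontier volume)
      intro v hv
      rw [mem_iInter] at hv
      refine ⟨(hv 0).2.1, fun h2 => ?_⟩
      obtain ⟨d, hd, h3⟩ := interior_subset h2
      obtain ⟨n, hn⟩ := exists_nat_one_div_lt hd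
      exact (hv n).2.2 (mem_of_le hA hq (by positivity) hn.le h3)
    have h3 := tendsto_measure_iInter_atTop (μ := (volume : Measure E))
      (s := fun n : ℕ => closedBall (0 : E) 1 ∩ (T \ {x | q + (1 / ((n : ℝ) + 1)) • x ∈ A})) ?_ ?_ ?_
    · rw [h1] at h3
      exact h3
    · intro n
      refine (isClosed_closedBall.measurableSet.inter
        (hTcl.measurableSet.diff ?_)).nullMeasurableSet
      exact (hclA.preimage (by fun_prop : Continuous fun x : E =>
        q + (1 / ((n : ℝ) + 1)) • x)).measurableSet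
    · intro n m hnm v hv
      refine ⟨hv.1, hv.2.1, fun h4 => hv.2.2 ?_⟩
      refine mem_of_le hA hq (by positivity) ?_ h4
      exact one_div_le_one_div_of_le (by positivity) (by exact_mod_cast Nat.add_le_add_right hnm 1)
    · exact ⟨0, ((measure_mono (fun v hv => hv.1)).trans_lt (lt_top_iff_ne_top.2 hBfin)).ne⟩
  obtain ⟨n, hn⟩ := (hlim1.eventually (gt_mem_nhds hc2)).exists
  obtain ⟨m, hm⟩ := (hlim2.eventually (gt_mem_nhds hc2)).exists
  obtain ⟨d, hd, hL2⟩ := L2 hq hw hA (η := 1 / ((n : ℝ) + 1)) (by positivity)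
  refine ⟨min d (1 / ((m : ℝ) + 1)), lt_min hd (by positivity), ?_⟩
  intro δ hδ hδ' A' hAdm
  have hδd : δ ≤ d := hδ'.trans (min_le_left _ _)
  have hδm : δ ≤ 1 / ((m : ℝ) + 1) := hδ'.trans (min_le_right _ _)
  set D : Set E := (fun v : E => δ • v) ⁻¹' ((fun x : E => q + x) ⁻¹' (A' \ A)) with hD
  have hDsub : D ⊆ ({v ∈ closedBall (0 : E) 1 | infDist v T < 1 / ((n : ℝ) + 1)} \ T) ∪
      (closedBall (0 : E) 1 ∩ (T \ {x | q + (1 / ((m : ℝ) + 1)) • x ∈ A})) := by
    intro v hv
    have hv1 : q + δ • v ∈ A' \ A := hv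
    have hvn : ‖v‖ ≤ 1 := by
      have h2 := hAdm.2.2 hv1
      rw [mem_closedBall, dist_eq_norm, add_sub_cancel_left, norm_smul, Real.norm_eq_abs,
        abs_of_pos hδ] at h2
      by_contra hcon
      push Not at hcon
      nlinarith
    by_cases hvT : v ∈ T
    · right
      refine ⟨by simpa using hvn, hvT, fun h3 => hv1.2 ?_⟩
      exact mem_of_le hA hq hδ hδm h3
    · left
      refine ⟨⟨by simpa using hvn, ?_⟩, hvT⟩
      by_contra hcon
      push Not at hcon
      exact hL2 δ hδ hδd A' hAdm v hvn hcon hv1.1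
  have hDvol : volume D ≤ c := by
    refine (measure_mono hDsub).trans ((measure_union_le _ _).trans ?_)
    calc _ ≤ c / 2 + c / 2 := add_le_add hn.le hm.le
      _ = c := ENNReal.add_halves c
  have hscale : volume D = ENNReal.ofReal |(δ ^ 2)⁻¹| * volume (A' \ A) := by
    rw [hD, Measure.addHaar_preimage_smul volume hδ.ne', measure_preimage_add]
    simp
  have hpos : 0 < δ ^ 2 := by positivity
  rw [hscale, abs_of_pos (by positivity), ENNReal.ofReal_inv_of_pos hpos] at hDvol
  have h0 : ENNReal.ofReal (δ ^ 2) ≠ 0 := by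
    rw [Ne, ENNReal.ofReal_eq_zero]; linarith
  have htop : ENNReal.ofReal (δ ^ 2) ≠ ∞ := ENNReal.ofReal_ne_top
  calc volume (A' \ A) = ENNReal.ofReal (δ ^ 2) * ((ENNReal.ofReal (δ ^ 2))⁻¹ * volume (A' \ A)) := by
        rw [← mul_assoc, ENNReal.mul_inv_cancel h0 htop, one_mul]
    _ ≤ ENNReal.ofReal (δ ^ 2) * c := by gcongr
    _ = c * ENNReal.ofReal (δ ^ 2) := mul_comm _ _

end

end Pool.Agent.TH605.CSC
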