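import Pool.Agent.TH605.CSC.Growth
set_option autoImplicit false

/-!
Curves with convex initial images and finite quadratic variation have images of area zero.
-/

namespace Pool.Agent.TH605.CSC

open MeasureTheory Metric Set Filter Topology
open scoped ENNReal

noncomputable section

variable {f : ℝ → E} {a b : ℝ}

/-- the area of the image of `[a, t]` -/
def ar (f : ℝ → E) (a t : ℝ) : ℝ := (volume (f '' Icc a t)).toReal

lemma isCompact_im (hf : ContinuousOn f (Icc a b)) {s t : ℝ} (hs : a ≤ s) (ht : t ≤ b) :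
    IsCompact (f '' Icc s t) :=
  isCompact_Icc.image_of_continuousOn (hf.mono (Icc_subset_Icc hs ht))

lemma vol_ne_top (hf : ContinuousOn f (Icc a b)) {s t : ℝ} (hs : a ≤ s) (ht : t ≤ b) :
    volume (f '' Icc s t) ≠ ∞ := (isCompact_im hf hs ht).measure_lt_top.ne

lemma ar_step (hf : ContinuousOn f (Icc a b)) {s t : ℝ} (hst : s ≤ t) (ht : t ≤ b)
    {y : ℝ} (hy : 0 ≤ y)
    (h : volume (f '' Icc a t \ f '' Icc a s) ≤ ENNReal.ofReal y) :
    ar f a t ≤ ar f a s + y := by
  have h1 : volume (f '' Icc a t) ≤ volume (f '' Icc a s) + ENNReal.ofReal y := by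
    calc volume (f '' Icc a t) ≤ volume (f '' Icc a s ∪ (f '' Icc a t \ f '' Icc a s)) :=
          measure_mono (by rw [union_sdiff_self]; exact subset_union_right)
      _ ≤ volume (f '' Icc a s) + volume (f '' Icc a t \ f '' Icc a s) := measure_union_le _ _
      _ ≤ _ := by gcongr
  have h2 := ENNReal.toReal_mono (ENNReal.add_ne_top.2
    ⟨vol_ne_top hf le_rfl (hst.trans ht), ENNReal.ofReal_ne_top⟩) h1
  rwa [ENNReal.toReal_add (vol_ne_top hf le_rfl (hst.trans ht)) ENNReal.ofReal_ne_top,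
    ENNReal.toReal_ofReal hy] at h2

lemma ar_mono (hf : ContinuousOn f (Icc a b)) {s t : ℝ} (hst : s ≤ t) (ht : t ≤ b) :
    ar f a s ≤ ar f a t :=
  ENNReal.toReal_mono (vol_ne_top hf le_rfl ht)
    (measure_mono (image_mono (Icc_subset_Icc_right hst)))

lemma ar_continuousOn (hf : ContinuousOn f (Icc a b)) : ContinuousOn (ar f a) (Icc a b) := by
  rw [Metric.continuousOn_iff]
  intro t0 ht0 ε hε
  obtain ⟨r, hr, hrε⟩ : ∃ r : ℝ, 0 < r ∧ r ^ 2 * Real.pi < ε := by
    have h1 : Tendsto (fun r : ℝ => r ^ 2 * Real.pi) (𝓝[>] 0) (𝓝 (0 ^ 2 * Real.pi)) :=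
      ((continuous_pow 2).mul continuous_const).continuousAt.mono_left nhdsWithin_le_nhds
    have h2 : (0 : ℝ) ^ 2 * Real.pi < ε := by simpa using hε
    obtain ⟨r, hr1, hr2⟩ := ((h1.eventually (gt_mem_nhds h2)).and self_mem_nhdsWithin).exists
    exact ⟨r, hr2, hr1⟩
  obtain ⟨η, hη, hc⟩ := Metric.continuousOn_iff.1 hf t0 ht0 r hr
  refine ⟨η, hη, fun t ht hd => ?_⟩
  have hball : volume (closedBall (f t0) r) = ENNReal.ofReal (r ^ 2 * Real.pi) := by
    rw [EuclideanSpace.volume_closedBall_fin_two, ENNReal.ofReal_mul (by positivity),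
      ENNReal.ofReal_pow hr.le]
  have hd' : |t - t0| < η := by rwa [Real.dist_eq] at hd
  rw [abs_lt] at hd'
  have hsub : ∀ s ∈ Icc a b, |s - t0| < η → f s ∈ closedBall (f t0) r := fun s hs hs' =>
    (hc s hs (by rwa [Real.dist_eq])).le
  rw [Real.dist_eq, abs_lt]
  rcases le_total t0 t with h | h
  · have h1 := ar_mono hf h ht.2
    have h2 := ar_step hf h ht.2 (y := r ^ 2 * Real.pi) (by positivity) (by
      rw [← hball]
      refine measure_mono ?_
      rintro _ ⟨⟨s, hs, rfl⟩, hs2⟩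
      have hs3 : t0 < s := by
        by_contra hcon
        exact hs2 ⟨s, ⟨hs.1, not_lt.1 hcon⟩, rfl⟩
      refine hsub s ⟨hs.1, hs.2.trans ht.2⟩ ?_
      rw [abs_lt]
      constructor <;> linarith [hs.2])
    constructor <;> linarith
  · have h1 := ar_mono hf h ht0.2
    have h2 := ar_step hf h ht0.2 (y := r ^ 2 * Real.pi) (by positivity) (by
      rw [← hball]
      refine measure_mono ?_
      rintro _ ⟨⟨s, hs, rfl⟩, hs2⟩
      have hs3 : t < s := by
        by_contra hcon
        exact hs2 ⟨s, ⟨hs.1, not_lt.1 hcon⟩, rfl⟩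
      refine hsub s ⟨hs.1, hs.2.trans ht0.2⟩ ?_
      rw [abs_lt]
      constructor <;> linarith [hs.2])
    constructor <;> linarith

/-- The strictly monotone version. -/
theorem no_quad (hab : a < b) (hf : ContinuousOn f (Icc a b))
    (hconv : ∀ t ∈ Ioc a b, Convex ℝ (f '' Icc a t))
    (hpos : 0 < volume (f '' Icc a b))
    (v : ℝ → ℝ) (hv : StrictMonoOn v (Icc a b))
    (hqv : ∀ s ∈ Icc a b, ∀ t ∈ Icc a b, s ≤ t → ‖f t - f s‖ ^ 2 ≤ v t - v s) : False := by
  have hSc := ar_continuousOn hf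
  have hSa : ar f a a = 0 := by simp [ar]
  have hSb : 0 < ar f a b := ENNReal.toReal_pos hpos.ne' (vol_ne_top hf le_rfl le_rfl)
  obtain ⟨t1, ht1, hSt1⟩ := intermediate_value_Icc hab.le hSc
    (show ar f a b / 2 ∈ Icc (ar f a a) (ar f a b) from ⟨by rw [hSa]; positivity, by linarith⟩)
  have hat1 : a < t1 := by
    rcases ht1.1.eq_or_lt with h | h
    · rw [← h, hSa] at hSt1; linarith
    · exact h
  have ht1b : t1 ∈ Icc a b := ht1
  -- the growth estimate
  have key : ∀ ε : ℝ, 0 < ε → ∀ t ∈ Icc t1 b, ar f a t ≤ ar f a t1 + ε * (v t - v t1) := by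
    intro ε hε
    by_contra hcon
    push Not at hcon
    set B : Set ℝ := {t | t ∈ Icc t1 b ∧ ar f a t1 + ε * (v t - v t1) < ar f a t} with hB
    have hBne : B.Nonempty := by
      obtain ⟨t, ht, h⟩ := hcon
      exact ⟨t, ht, h⟩
    have hBbdd : BddBelow B := ⟨t1, fun t ht => ht.1.1⟩
    set τ := sInf B with hτ
    have hτ1 : t1 ≤ τ := le_csInf hBne fun t ht => ht.1.1
    have hτb : τ ≤ b := by
      obtain ⟨t, ht⟩ := hBne
      exact (csInf_le hBbdd ht).trans ht.1.2
    have hτI : τ ∈ Icc a b := ⟨hat1.le.trans hτ1, hτb⟩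
    have hlt : ∀ t ∈ Icc t1 b, t < τ → ar f a t ≤ ar f a t1 + ε * (v t - v t1) := by
      intro t ht htτ
      by_contra h
      exact absurd (csInf_le hBbdd (show t ∈ B from ⟨ht, not_le.1 h⟩)) (not_le.2 htτ)
    have hPτ : ar f a τ ≤ ar f a t1 + ε * (v τ - v t1) := by
      rcases hτ1.eq_or_lt with h | h
      · rw [← h]; simp
      · have h1 : Tendsto (ar f a) (𝓝[Ico t1 τ] τ) (𝓝 (ar f a τ)) :=
          (hSc τ hτI).mono_left (nhdsWithin_mono _ (fun x hx =>
            ⟨hat1.le.trans hx.1, hx.2.le.trans hτb⟩))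
        have hne : (𝓝[Ico t1 τ] τ).NeBot := by
          rw [nhdsWithin_Ico_eq_nhdsLT h]; infer_instance
        refine le_of_tendsto h1 ?_
        filter_upwards [self_mem_nhdsWithin] with x hx
        have h2 := hlt x ⟨hx.1, hx.2.le.trans hτb⟩ hx.2
        have h3 : v x ≤ v τ := (hv ⟨hat1.le.trans hx.1, hx.2.le.trans hτb⟩ hτI hx.2).le
        nlinarith
    -- the step to the right
    have hq : f τ ∈ f '' Icc a τ := ⟨τ, ⟨hτI.1, le_rfl⟩, rfl⟩
    have hAconv : Convex ℝ (f '' Icc a τ) := hconv τ ⟨hat1.trans_le hτ1, hτb⟩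
    have hAcl : IsClosed (f '' Icc a τ) := (isCompact_im hf le_rfl hτb).isClosed
    have hAint : (interior (f '' Icc a τ)).Nonempty := by
      by_contra h
      rw [not_nonempty_iff_eq_empty] at h
      have h1 : volume (f '' Icc a τ) = 0 := by
        refine measure_mono_null ?_ (hAconv.addHaar_frontier volume)
        rw [frontier, h, sdiff_empty]
        exact subset_closure
      have h2 : ar f a τ = 0 := by rw [ar, h1]; rfl
      have h3 := ar_mono hf hτ1 hτb
      linarith
    obtain ⟨δ1, hδ1, hgr⟩ := growth hq hAconv hAcl hAint (c := ENNReal.ofReal ε)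
      (ENNReal.ofReal_pos.2 hε)
    obtain ⟨η, hη, hc⟩ := Metric.continuousOn_iff.1 hf τ hτI δ1 hδ1
    have hstep : ∀ t ∈ Icc t1 b, τ < t → t < τ + η →
        ar f a t ≤ ar f a t1 + ε * (v t - v t1) := by
      intro t ht h1 h2
      have htI : t ∈ Icc a b := ⟨hat1.le.trans ht.1, ht.2⟩
      have hw : 0 < v t - v τ := sub_pos.2 (hv hτI htI h1)
      set δ : ℝ := min (Real.sqrt (v t - v τ)) δ1 with hδ
      have hδpos : 0 < δ := lt_min (Real.sqrt_pos.2 hw) hδ1
      have hAdm : Adm (f '' Icc a τ) (f τ) δ (f '' Icc a t) := by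
        refine ⟨hconv t ⟨hat1.trans_le ht.1, ht.2⟩, image_mono (Icc_subset_Icc_right h1.le), ?_⟩
        rintro _ ⟨⟨s, hs, rfl⟩, hs2⟩
        have hs3 : τ < s := by
          by_contra hcon2
          exact hs2 ⟨s, ⟨hs.1, not_lt.1 hcon2⟩, rfl⟩
        have hsI : s ∈ Icc a b := ⟨hs.1, hs.2.trans ht.2⟩
        rw [mem_closedBall, dist_eq_norm, hδ, le_min_iff]
        constructor
        · refine Real.le_sqrt_of_sq_le ?_
          have h3 := hqv τ hτI s hsI hs3.le
          have h4 : v s ≤ v t := hv.monotoneOn hsI htI hs.2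
          linarith
        · rw [← dist_eq_norm]
          refine (hc s hsI ?_).le
          rw [Real.dist_eq, abs_lt]
          constructor <;> linarith [hs.2]
      have h5 := hgr δ hδpos (min_le_right _ _) _ hAdm
      have h6 : δ ^ 2 ≤ v t - v τ := by
        have : δ ≤ Real.sqrt (v t - v τ) := min_le_left _ _
        calc δ ^ 2 ≤ (Real.sqrt (v t - v τ)) ^ 2 := by gcongr
          _ = _ := Real.sq_sqrt hw.le
      have h7 : volume (f '' Icc a t \ f '' Icc a τ) ≤ ENNReal.ofReal (ε * (v t - v τ)) := by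
        refine h5.trans ?_
        rw [← ENNReal.ofReal_mul hε.le]
        exact ENNReal.ofReal_le_ofReal (by gcongr)
      have h8 := ar_step hf h1.le ht.2 (by positivity) h7
      nlinarith
    have hge : τ + min η 1 ≤ sInf B := by
      refine le_csInf hBne fun t ht => ?_
      by_contra h
      push Not at h
      have h1 : τ ≤ t := csInf_le hBbdd ht
      rcases h1.eq_or_lt with h2 | h2
      · have := ht.2
        rw [← h2] at this
        linarith
      · have h3 : t < τ + η := h.trans_le (by linarith [min_le_left η 1])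
        exact absurd (hstep t ht.1 h2 h3) (not_le.2 ht.2)
    have : 0 < min η 1 := lt_min hη one_pos
    rw [← hτ] at hge
    linarith
  have hfin : ar f a b ≤ ar f a t1 := by
    refine le_of_forall_pos_le_add fun e he => ?_
    have hvb : v t1 ≤ v b := hv.monotoneOn ht1b ⟨hab.le, le_rfl⟩ ht1.2
    have h1 := key (e / (v b - v t1 + 1)) (by apply div_pos he; linarith) b ⟨ht1.2, le_rfl⟩
    refine h1.trans ?_
    have h2 : e / (v b - v t1 + 1) * (v b - v t1) ≤ e := by
      rw [div_mul_eq_mul_div, div_le_iff₀ (by linarith)]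
      nlinarith
    linarith
  linarith

/-- The version with sums over partitions. -/
theorem quad_var (hab : a < b) (hf : ContinuousOn f (Icc a b))
    (hconv : ∀ t ∈ Ioc a b, Convex ℝ (f '' Icc a t))
    (hpos : 0 < volume (f '' Icc a b)) (M : ℝ) :
    ∃ (n : ℕ) (u : ℕ → ℝ), Monotone u ∧ (∀ i, u i ∈ Icc a b) ∧
      M < ∑ i ∈ Finset.range n, ‖f (u (i + 1)) - f (u i)‖ ^ 2 := by
  by_contra hcon
  push Not at hcon
  set W : ℝ → Set ℝ := fun t => {x | ∃ (n : ℕ) (u : ℕ → ℝ), Monotone u ∧ (∀ i, u i ∈ Icc a t) ∧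
      x = ∑ i ∈ Finset.range n, ‖f (u (i + 1)) - f (u i)‖ ^ 2} with hW
  have hbdd : ∀ t ≤ b, BddAbove (W t) := by
    intro t ht
    refine ⟨M, ?_⟩
    rintro _ ⟨n, u, hu, hu2, rfl⟩
    exact hcon n u hu fun i => ⟨(hu2 i).1, (hu2 i).2.trans ht⟩
  have hne : ∀ t, a ≤ t → (W t).Nonempty := fun t ht =>
    ⟨0, 0, fun _ => a, fun _ _ _ => le_rfl, fun _ => ⟨le_rfl, ht⟩, by simp⟩
  have hmain : ∀ s ∈ Icc a b, ∀ t ∈ Icc a b, s ≤ t →
      ‖f t - f s‖ ^ 2 ≤ sSup (W t) - sSup (W s) := by
    intro s hs t ht hst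
    have : sSup (W s) ≤ sSup (W t) - ‖f t - f s‖ ^ 2 := by
      refine csSup_le (hne s hs.1) ?_
      rintro _ ⟨n, u, hu, hu2, rfl⟩
      rw [le_sub_iff_add_le]
      set u' : ℕ → ℝ := fun i => if i ≤ n then u i else if i = n + 1 then s else t with hu'
      have hmem : (∑ i ∈ Finset.range (n + 2), ‖f (u' (i + 1)) - f (u' i)‖ ^ 2) ∈ W t := by
        refine ⟨n + 2, u', ?_, ?_, rfl⟩
        · refine monotone_nat_of_le_succ fun i => ?_
          simp only [hu']
          rcases lt_trichotomy i n with h | h | h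
          · rw [if_pos h.le, if_pos (by omega)]
            exact hu (by omega)
          · subst h
            simp [(hu2 i).2]
          · rw [if_neg (by omega), if_neg (by omega : ¬ i + 1 ≤ n), if_neg (by omega : ¬ i + 1 = n + 1)]
            split_ifs
            · exact hst
            · exact le_rfl
        · intro i
          simp only [hu']
          split_ifs
          · exact ⟨(hu2 i).1, (hu2 i).2.trans hst⟩
          · exact ⟨hs.1, hst⟩
          · exact ⟨ht.1, le_rfl⟩
      refine le_trans ?_ (le_csSup (hbdd t ht.2) hmem)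
      rw [Finset.sum_range_succ, Finset.sum_range_succ]
      have h1 : u' (n + 1 + 1) = t := by simp [hu']
      have h2 : u' (n + 1) = s := by simp [hu']
      rw [h1, h2]
      have h3 : ∑ i ∈ Finset.range n, ‖f (u' (i + 1)) - f (u' i)‖ ^ 2 =
          ∑ i ∈ Finset.range n, ‖f (u (i + 1)) - f (u i)‖ ^ 2 := by
        refine Finset.sum_congr rfl fun i hi => ?_
        rw [Finset.mem_range] at hi
        simp only [hu']
        rw [if_pos (by omega), if_pos hi.le]
      rw [h3]
      have h4 : 0 ≤ ‖f s - f (u' n)‖ ^ 2 := by positivity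
      linarith
    linarith
  refine no_quad hab hf hconv hpos (fun t => sSup (W t) + t) ?_ ?_
  · intro s hs t ht hst
    have h1 := hmain s hs t ht hst.le
    have h2 : 0 ≤ ‖f t - f s‖ ^ 2 := by positivity
    show sSup (W s) + s < sSup (W t) + t
    linarith
  · intro s hs t ht hst
    have h1 := hmain s hs t ht hst
    show ‖f t - f s‖ ^ 2 ≤ sSup (W t) + t - (sSup (W s) + s)
    linarith

end

end Pool.Agent.TH605.CSC
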