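import Pool.Agent.TH605.CSC.Edge
set_option autoImplicit false

/-!
Adjacent images overlap; generic points are visited uncountably often.
-/

namespace Pool.Agent.TH605.CSC

open MeasureTheory Metric Set Filter Topology

noncomputable section

variable {f : ℝ → E}

lemma im_compact (hf : ContinuousOn f (Icc 0 1)) {a b : ℝ} (ha : 0 ≤ a) (hb : b ≤ 1) :
    IsCompact (f '' Icc a b) :=
  isCompact_Icc.image_of_continuousOn (hf.mono (Icc_subset_Icc ha hb))

lemma im_interior
    (h : ∀ a b : ℝ, 0 ≤ a → a < b → b ≤ 1 → Convex ℝ (f '' Icc a b) ∧ 0 < volume (f '' Icc a b))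
    {a b : ℝ} (ha : 0 ≤ a) (hab : a < b) (hb : b ≤ 1) : (interior (f '' Icc a b)).Nonempty := by
  by_contra hc
  rw [not_nonempty_iff_eq_empty] at hc
  refine (h a b ha hab hb).2.ne' (measure_mono_null ?_ ((h a b ha hab hb).1.addHaar_frontier volume))
  rw [frontier, hc, sdiff_empty]
  exact subset_closure

/-- The images of adjacent intervals overlap. -/
theorem overlap (hf : ContinuousOn f (Icc 0 1))
    (h : ∀ a b : ℝ, 0 ≤ a → a < b → b ≤ 1 → Convex ℝ (f '' Icc a b) ∧ 0 < volume (f '' Icc a b))
    {a t b : ℝ} (ha : 0 ≤ a) (hat : a < t) (htb : t < b) (hb : b ≤ 1) :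
    (interior (f '' Icc a t ∩ f '' Icc t b)).Nonempty := by
  set A := f '' Icc a t with hAdef
  set B := f '' Icc t b with hBdef
  have ht1 : t ≤ 1 := htb.le.trans hb
  have ht0 : 0 ≤ t := ha.trans hat.le
  have hA := (h a t ha hat ht1).1
  have hB := (h t b ht0 htb hb).1
  have hAi := im_interior h ha hat ht1
  have hBi := im_interior h ht0 htb hb
  have hAcl : IsClosed A := (im_compact hf ha ht1).isClosed
  have hBcl : IsClosed B := (im_compact hf ht0 hb).isClosed
  have hun : f '' Icc a b = A ∪ B := by
    rw [hAdef, hBdef, ← image_union, Icc_union_Icc_eq_Icc hat.le htb.le]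
  have hconv : Convex ℝ (A ∪ B) := hun ▸ (h a b ha (hat.trans htb) hb).1
  by_contra hemp
  rw [not_nonempty_iff_eq_empty, interior_inter] at hemp
  obtain ⟨g, k, hg1, hg2⟩ := geometric_hahn_banach_open_open hA.interior isOpen_interior
    hB.interior isOpen_interior (disjoint_iff_inter_eq_empty.2 hemp)
  have hgA : ∀ z ∈ A, g z ≤ k := by
    intro z hz
    have h1 : z ∈ closure (interior A) := by
      rw [hA.closure_interior_eq_closure_of_nonempty_interior hAi]
      exact subset_closure hz
    have h2 : closure (interior A) ⊆ {z | g z ≤ k} :=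
      closure_minimal (fun z hz => (hg1 z hz).le) (isClosed_le g.continuous continuous_const)
    exact h2 h1
  have hgB : ∀ z ∈ B, k ≤ g z := by
    intro z hz
    have h1 : z ∈ closure (interior B) := by
      rw [hB.closure_interior_eq_closure_of_nonempty_interior hBi]
      exact subset_closure hz
    have h2 : closure (interior B) ⊆ {z | k ≤ g z} :=
      closure_minimal (fun z hz => (hg2 z hz).le) (isClosed_le continuous_const g.continuous)
    exact h2 h1
  obtain ⟨x, hx⟩ := hAi
  have hgx := hg1 x hx
  obtain ⟨y, hy⟩ := hBi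
  have hgy := hg2 y hy
  -- a direction of the kernel
  obtain ⟨w, hw, hw0⟩ : ∃ w : E, g w = 0 ∧ w ≠ 0 := by
    have h1 : LinearMap.ker (g : E →ₗ[ℝ] ℝ) ≠ ⊥ := by
      apply LinearMap.ker_ne_bot_of_finrank_lt
      simp
    obtain ⟨w, hw, hw0⟩ := Submodule.exists_mem_ne_zero_of_ne_bot h1
    exact ⟨w, by simpa using hw, hw0⟩
  obtain ⟨e, he, hye⟩ : ∃ e : ℝ, 0 < e ∧ y + e • w ∈ B := by
    have h1 : Continuous (fun l : ℝ => y + l • w) := by fun_prop
    have h2 : Tendsto (fun l : ℝ => y + l • w) (𝓝[>] 0) (𝓝 y) := by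
      have := h1.tendsto 0
      simp only [zero_smul, add_zero] at this
      exact this.mono_left nhdsWithin_le_nhds
    obtain ⟨l, hl1, hl2⟩ := ((h2.eventually (mem_interior_iff_mem_nhds.1 hy)).and
      self_mem_nhdsWithin).exists
    exact ⟨l, hl2, hl1⟩
  -- the crossing points belong to `A`
  have cross : ∀ y' ∈ B, g y' = g y →
      x + ((k - g x) / (g y - g x)) • (y' - x) ∈ A := by
    intro y' hy' hgy'
    set l := (k - g x) / (g y - g x) with hl
    have hd : 0 < g y - g x := by linarith
    have hl0 : 0 < l := div_pos (by linarith) hd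
    have hl1 : l < 1 := (div_lt_one hd).2 (by linarith)
    have hlk : l * (g y - g x) = k - g x := by rw [hl]; field_simp
    have hlim : Tendsto (fun m : ℝ => x + m • (y' - x)) (𝓝[<] l) (𝓝 (x + l • (y' - x))) :=
      ((by fun_prop : Continuous (fun m : ℝ => x + m • (y' - x))).tendsto l).mono_left
        nhdsWithin_le_nhds
    refine hAcl.mem_of_tendsto hlim ?_
    filter_upwards [Ioo_mem_nhdsLT hl0] with m hm
    have hmem : x + m • (y' - x) ∈ A ∪ B := by
      have := hconv (Or.inl (interior_subset hx)) (Or.inr hy') (by linarith [hm.2] : 0 ≤ 1 - m)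
        hm.1.le (by ring)
      have e : (1 - m) • x + m • y' = x + m • (y' - x) := by
        rw [sub_smul, one_smul, smul_sub]; abel
      rwa [e] at this
    rcases hmem with h1 | h1
    · exact h1
    · exfalso
      have h2 := hgB _ h1
      rw [map_add, map_smul, map_sub, hgy', smul_eq_mul] at h2
      have h3 : m * (g y - g x) < l * (g y - g x) := by
        apply mul_lt_mul_of_pos_right hm.2 hd
      linarith
  have hyB : y ∈ B := interior_subset hy
  have hd : 0 < g y - g x := by linarith
  set l := (k - g x) / (g y - g x) with hl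
  have hl0 : 0 < l := div_pos (by linarith) hd
  have hlk : l * (g y - g x) = k - g x := by rw [hl]; field_simp
  have hz1 := cross y hyB rfl
  have hgew : g (y + e • w) = g y := by rw [map_add, map_smul, hw, smul_zero, add_zero]
  have hz2 := cross (y + e • w) hye hgew
  have hne : x + l • (y - x) ≠ x + l • (y + e • w - x) := by
    intro hcon
    have h1 : l • (y - x) = l • (y + e • w - x) := add_left_cancel hcon
    have h2 : y - x = y + e • w - x := smul_right_injective E hl0.ne' h1
    have h3 : e • w = 0 := by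
      have h4 : y + e • w - x - (y - x) = 0 := by rw [h2, sub_self]
      have h5 : y + e • w - x - (y - x) = e • w := by abel
      rwa [h5] at h4
    exact hw0 ((smul_eq_zero.1 h3).resolve_left he.ne')
  have hgz1 : g (x + l • (y - x)) = k := by
    rw [map_add, map_smul, map_sub, smul_eq_mul, hlk]; ring
  have hgz2 : g (x + l • (y + e • w - x)) = k := by
    rw [map_add, map_smul, map_sub, hgew, smul_eq_mul, hlk]; ring
  have hfin := edge_core hf (fun a b ha hab hb => (h a b ha hab hb).1) ha hat ht1 g hz1 hz2 hne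
    hgz1 hgz2 hgA
  have := hfin y (image_mono (Icc_subset_Icc ht0 hb) hyB)
  linarith

end

end Pool.Agent.TH605.CSC
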