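import Pool.Agent.TH605.CSC.Main
set_option autoImplicit false

/-!
The growth law of curves with convex initial images, and the pointwise version.
-/

namespace Pool.Agent.TH605.CSC

open MeasureTheory Metric Set Filter Topology
open scoped ENNReal

noncomputable section

variable {f : ℝ → E} {a b : ℝ}

lemma int_of_pos {A : Set E} (hA : Convex ℝ A) (h : 0 < volume A) : (interior A).Nonempty := by
  by_contra hc
  rw [not_nonempty_iff_eq_empty] at hc
  have h1 : volume A = 0 := by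
    refine measure_mono_null ?_ (hA.addHaar_frontier volume)
    rw [frontier, hc, sdiff_empty]
    exact subset_closure
  exact h.ne' h1

/-- The growth law. -/
theorem growth_law (hf : ContinuousOn f (Icc a b))
    (hconv : ∀ t ∈ Ioc a b, Convex ℝ (f '' Icc a t)) {t : ℝ} (ht : t ∈ Ioo a b)
    (hpos : 0 < volume (f '' Icc a t)) {ε : ℝ} (hε : 0 < ε) :
    ∀ᶠ t' in 𝓝[>] t, volume (f '' Icc a t' \ f '' Icc a t) ≤
      ENNReal.ofReal (ε * diam (f '' Icc t t') ^ 2) := by
  have htI : t ∈ Icc a b := ⟨ht.1.le, ht.2.le⟩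
  have hA := hconv t ⟨ht.1, ht.2.le⟩
  obtain ⟨δ1, hδ1, hgr⟩ := growth (A := f '' Icc a t) (q := f t)
    ⟨t, ⟨ht.1.le, le_rfl⟩, rfl⟩ hA
    (isCompact_im hf le_rfl ht.2.le).isClosed (int_of_pos hA hpos) (c := ENNReal.ofReal ε)
    (ENNReal.ofReal_pos.2 hε)
  obtain ⟨η, hη, hc⟩ := Metric.continuousOn_iff.1 hf t htI (δ1 / 2) (by positivity)
  have hmem : Ioo t (min (t + η) b) ∈ 𝓝[>] t :=
    Ioo_mem_nhdsGT (lt_min (by linarith) ht.2)
  filter_upwards [hmem] with t' ht'
  have ht'1 : t' < t + η := ht'.2.trans_le (min_le_left _ _)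
  have ht'b : t' < b := ht'.2.trans_le (min_le_right _ _)
  have hbd : Bornology.IsBounded (f '' Icc t t') := (isCompact_im hf ht.1.le ht'b.le).isBounded
  have hft : f t ∈ f '' Icc t t' := ⟨t, ⟨le_rfl, ht'.1.le⟩, rfl⟩
  have hnew : ∀ z ∈ f '' Icc a t' \ f '' Icc a t, z ∈ f '' Icc t t' := by
    rintro _ ⟨⟨s, hs, rfl⟩, hs2⟩
    refine ⟨s, ⟨?_, hs.2⟩, rfl⟩
    by_contra hcon
    exact hs2 ⟨s, ⟨hs.1, (not_le.1 hcon).le⟩, rfl⟩
  have hd1 : diam (f '' Icc t t') ≤ δ1 := by
    refine diam_le_of_forall_dist_le hδ1.le ?_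
    rintro _ ⟨s, hs, rfl⟩ _ ⟨s', hs', rfl⟩
    have e1 := hc s ⟨ht.1.le.trans hs.1, hs.2.trans ht'b.le⟩ (by
      rw [Real.dist_eq, abs_lt]; constructor <;> linarith [hs.1, hs.2])
    have e2 := hc s' ⟨ht.1.le.trans hs'.1, hs'.2.trans ht'b.le⟩ (by
      rw [Real.dist_eq, abs_lt]; constructor <;> linarith [hs'.1, hs'.2])
    have e3 := dist_triangle_right (f s) (f s') (f t)
    linarith
  rcases (diam_nonneg (s := f '' Icc t t')).eq_or_lt with h0 | h0
  · have : f '' Icc a t' \ f '' Icc a t = ∅ := by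
      rw [eq_empty_iff_forall_notMem]
      intro z hz
      have h1 := dist_le_diam_of_mem hbd (hnew z hz) hft
      rw [← h0] at h1
      have h2 : z = f t := dist_le_zero.1 h1
      exact hz.2 (h2 ▸ ⟨t, ⟨ht.1.le, le_rfl⟩, rfl⟩)
    rw [this, measure_empty]
    exact zero_le
  · rw [ENNReal.ofReal_mul hε.le]
    refine hgr _ h0 hd1 _ ⟨hconv t' ⟨ht.1.trans ht'.1, ht'b.le⟩,
      image_mono (Icc_subset_Icc_right ht'.1.le), ?_⟩
    intro z hz
    exact dist_le_diam_of_mem hbd (hnew z hz) hft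

/-- The strictly monotone version, pointwise. -/
theorem no_pt (hab : a < b) (hf : ContinuousOn f (Icc a b))
    (hconv : ∀ t ∈ Ioc a b, Convex ℝ (f '' Icc a t))
    (hpos : 0 < volume (f '' Icc a b))
    (v : ℝ → ℝ) (hv : StrictMonoOn v (Icc a b))
    (hqv : ∀ t ∈ Ico a b, ∃ C : ℝ, ∀ᶠ s in 𝓝[>] t, ‖f s - f t‖ ^ 2 ≤ C * (v s - v t)) :
    False := by
  have hSc := ar_continuousOn hf
  have hSa : ar f a a = 0 := by simp [ar]
  have hSb : 0 < ar f a b := ENNReal.toReal_pos hpos.ne' (vol_ne_top hf le_rfl le_rfl)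
  obtain ⟨t1, ht1, hSt1⟩ := intermediate_value_Icc hab.le hSc
    (show ar f a b / 2 ∈ Icc (ar f a a) (ar f a b) from ⟨by rw [hSa]; positivity, by linarith⟩)
  have hat1 : a < t1 := by
    rcases ht1.1.eq_or_lt with h | h
    · rw [← h, hSa] at hSt1; linarith
    · exact h
  have ht1b : t1 ∈ Icc a b := ht1
  -- the growth estimate
  have key : ∀ ε : ℝ, 0 < ε → ∀ t ∈ Icc t1 b, ar f a t ≤ ar f a t1 + ε * (v t - v t1) := by
    intro ε hε
    by_contra hcon
    push Not at hcon
    set B : Set ℝ := {t | t ∈ Icc t1 b ∧ ar f a t1 + ε * (v t - v t1) < ar f a t} with hB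
    have hBne : B.Nonempty := by
      obtain ⟨t, ht, h⟩ := hcon
      exact ⟨t, ht, h⟩
    have hBbdd : BddBelow B := ⟨t1, fun t ht => ht.1.1⟩
    set τ := sInf B with hτ
    have hτ1 : t1 ≤ τ := le_csInf hBne fun t ht => ht.1.1
    have hτb : τ ≤ b := by
      obtain ⟨t, ht⟩ := hBne
      exact (csInf_le hBbdd ht).trans ht.1.2
    have hτI : τ ∈ Icc a b := ⟨hat1.le.trans hτ1, hτb⟩
    have hlt : ∀ t ∈ Icc t1 b, t < τ → ar f a t ≤ ar f a t1 + ε * (v t - v t1) := by
      intro t ht htτ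
      by_contra h
      exact absurd (csInf_le hBbdd (show t ∈ B from ⟨ht, not_le.1 h⟩)) (not_le.2 htτ)
    have hPτ : ar f a τ ≤ ar f a t1 + ε * (v τ - v t1) := by
      rcases hτ1.eq_or_lt with h | h
      · rw [← h]; simp
      · have h1 : Tendsto (ar f a) (𝓝[Ico t1 τ] τ) (𝓝 (ar f a τ)) :=
          (hSc τ hτI).mono_left (nhdsWithin_mono _ (fun x hx =>
            ⟨hat1.le.trans hx.1, hx.2.le.trans hτb⟩))
        have hne : (𝓝[Ico t1 τ] τ).NeBot := by
          rw [nhdsWithin_Ico_eq_nhdsLT h]; infer_instance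
        refine le_of_tendsto h1 ?_
        filter_upwards [self_mem_nhdsWithin] with x hx
        have h2 := hlt x ⟨hx.1, hx.2.le.trans hτb⟩ hx.2
        have h3 : v x ≤ v τ := (hv ⟨hat1.le.trans hx.1, hx.2.le.trans hτb⟩ hτI hx.2).le
        nlinarith
    -- the step to the right
    have hq : f τ ∈ f '' Icc a τ := ⟨τ, ⟨hτI.1, le_rfl⟩, rfl⟩
    have hAconv : Convex ℝ (f '' Icc a τ) := hconv τ ⟨hat1.trans_le hτ1, hτb⟩
    have hAcl : IsClosed (f '' Icc a τ) := (isCompact_im hf le_rfl hτb).isClosed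
    have hAint : (interior (f '' Icc a τ)).Nonempty := by
      by_contra h
      rw [not_nonempty_iff_eq_empty] at h
      have h1 : volume (f '' Icc a τ) = 0 := by
        refine measure_mono_null ?_ (hAconv.addHaar_frontier volume)
        rw [frontier, h, sdiff_empty]
        exact subset_closure
      have h2 : ar f a τ = 0 := by rw [ar, h1]; rfl
      have h3 := ar_mono hf hτ1 hτb
      linarith
    have hτlt : τ < b := by
      obtain ⟨t, ht⟩ := hBne
      rcases (csInf_le hBbdd ht : τ ≤ t).eq_or_lt with h | h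
      · exfalso
        have := ht.2
        rw [← h] at this
        linarith
      · exact h.trans_le ht.1.2
    obtain ⟨C0, hC0⟩ := hqv τ ⟨hτI.1, hτlt⟩
    set C : ℝ := max C0 1 with hCdef
    have hC1 : 0 < C := lt_of_lt_of_le one_pos (le_max_right _ _)
    obtain ⟨η1, hη1, hC2⟩ := Metric.eventually_nhds_iff.1 (eventually_nhdsWithin_iff.1 hC0)
    have hC : ∀ s ∈ Icc a b, τ < s → s < τ + η1 → ‖f s - f τ‖ ^ 2 ≤ C * (v s - v τ) := by
      intro s hs h1 h2
      have h3 := hC2 (y := s) (by rw [Real.dist_eq, abs_lt]; constructor <;> linarith) h1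
      have h4 : 0 < v s - v τ := sub_pos.2 (hv hτI hs h1)
      exact h3.trans (by gcongr; exact le_max_left _ _)
    obtain ⟨δ1, hδ1, hgr⟩ := growth hq hAconv hAcl hAint (c := ENNReal.ofReal (ε / C))
      (ENNReal.ofReal_pos.2 (by positivity))
    obtain ⟨η0, hη0, hc⟩ := Metric.continuousOn_iff.1 hf τ hτI δ1 hδ1
    set η : ℝ := min η0 η1 with hηdef
    have hη : 0 < η := lt_min hη0 hη1
    have hηle0 : η ≤ η0 := min_le_left _ _
    have hηle1 : η ≤ η1 := min_le_right _ _
    have hstep : ∀ t ∈ Icc t1 b, τ < t → t < τ + η →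
        ar f a t ≤ ar f a t1 + ε * (v t - v t1) := by
      intro t ht h1 h2
      have htI : t ∈ Icc a b := ⟨hat1.le.trans ht.1, ht.2⟩
      have hw0 : 0 < v t - v τ := sub_pos.2 (hv hτI htI h1)
      have hw : 0 < C * (v t - v τ) := by positivity
      set δ : ℝ := min (Real.sqrt (C * (v t - v τ))) δ1 with hδ
      have hδpos : 0 < δ := lt_min (Real.sqrt_pos.2 hw) hδ1
      have hAdm : Adm (f '' Icc a τ) (f τ) δ (f '' Icc a t) := by
        refine ⟨hconv t ⟨hat1.trans_le ht.1, ht.2⟩, image_mono (Icc_subset_Icc_right h1.le), ?_⟩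
        rintro _ ⟨⟨s, hs, rfl⟩, hs2⟩
        have hs3 : τ < s := by
          by_contra hcon2
          exact hs2 ⟨s, ⟨hs.1, not_lt.1 hcon2⟩, rfl⟩
        have hsI : s ∈ Icc a b := ⟨hs.1, hs.2.trans ht.2⟩
        rw [mem_closedBall, dist_eq_norm, hδ, le_min_iff]
        constructor
        · refine Real.le_sqrt_of_sq_le ?_
          have h3 := hC s hsI hs3 (by linarith [hs.2])
          have h4 : v s ≤ v t := hv.monotoneOn hsI htI hs.2
          exact h3.trans (by gcongr)
        · rw [← dist_eq_norm]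
          refine (hc s hsI ?_).le
          rw [Real.dist_eq, abs_lt]
          constructor <;> linarith [hs.2]
      have h5 := hgr δ hδpos (min_le_right _ _) _ hAdm
      have h6 : δ ^ 2 ≤ C * (v t - v τ) := by
        have : δ ≤ Real.sqrt (C * (v t - v τ)) := min_le_left _ _
        calc δ ^ 2 ≤ (Real.sqrt (C * (v t - v τ))) ^ 2 := by gcongr
          _ = _ := Real.sq_sqrt hw.le
      have h7 : volume (f '' Icc a t \ f '' Icc a τ) ≤ ENNReal.ofReal (ε * (v t - v τ)) := by
        refine h5.trans ?_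
        rw [← ENNReal.ofReal_mul (by positivity)]
        refine ENNReal.ofReal_le_ofReal ?_
        calc ε / C * δ ^ 2 ≤ ε / C * (C * (v t - v τ)) := by gcongr
          _ = ε * (v t - v τ) := by field_simp
      have h8 := ar_step hf h1.le ht.2 (by positivity) h7
      nlinarith
    have hge : τ + min η 1 ≤ sInf B := by
      refine le_csInf hBne fun t ht => ?_
      by_contra h
      push Not at h
      have h1 : τ ≤ t := csInf_le hBbdd ht
      rcases h1.eq_or_lt with h2 | h2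
      · have := ht.2
        rw [← h2] at this
        linarith
      · have h3 : t < τ + η := h.trans_le (by linarith [min_le_left η 1])
        exact absurd (hstep t ht.1 h2 h3) (not_le.2 ht.2)
    have : 0 < min η 1 := lt_min hη one_pos
    rw [← hτ] at hge
    linarith
  have hfin : ar f a b ≤ ar f a t1 := by
    refine le_of_forall_pos_le_add fun e he => ?_
    have hvb : v t1 ≤ v b := hv.monotoneOn ht1b ⟨hab.le, le_rfl⟩ ht1.2
    have h1 := key (e / (v b - v t1 + 1)) (by apply div_pos he; linarith) b ⟨ht1.2, le_rfl⟩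
    refine h1.trans ?_
    have h2 : e / (v b - v t1 + 1) * (v b - v t1) ≤ e := by
      rw [div_mul_eq_mul_div, div_le_iff₀ (by linarith)]
      nlinarith
    linarith
  linarith


/-- the jump function of a sequence -/
def jf (e : ℕ → ℝ) (t : ℝ) : ℝ := ∑' n : ℕ, if e n < t then (1 / 2 : ℝ) ^ n else 0

lemma jf_summable (e : ℕ → ℝ) (t : ℝ) :
    Summable (fun n : ℕ => if e n < t then (1 / 2 : ℝ) ^ n else 0) := by
  refine Summable.of_nonneg_of_le (fun n => ?_) (fun n => ?_) summable_geometric_two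
  · split_ifs <;> positivity
  · split_ifs
    · exact le_rfl
    · positivity

lemma jf_mono (e : ℕ → ℝ) {s t : ℝ} (h : s ≤ t) : jf e s ≤ jf e t := by
  refine (jf_summable e s).tsum_le_tsum (fun n => ?_) (jf_summable e t)
  split_ifs with h1 h2
  · exact le_rfl
  · exact absurd (h1.trans_le h) h2
  · positivity
  · exact le_rfl

lemma jf_jump (e : ℕ → ℝ) (n : ℕ) {t : ℝ} (h : e n < t) : jf e (e n) + (1 / 2) ^ n ≤ jf e t := by
  have h1 : Summable (fun k : ℕ => if k = n then (1 / 2 : ℝ) ^ n else 0) :=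
    (hasSum_ite_eq n ((1 / 2 : ℝ) ^ n)).summable
  have h2 : (1 / 2 : ℝ) ^ n = ∑' k : ℕ, if k = n then (1 / 2 : ℝ) ^ n else 0 :=
    (hasSum_ite_eq n ((1 / 2 : ℝ) ^ n)).tsum_eq.symm
  rw [jf, h2, ← (jf_summable e (e n)).tsum_add h1]
  refine ((jf_summable e (e n)).add h1).tsum_le_tsum (fun k => ?_) (jf_summable e t)
  by_cases hk : k = n
  · subst hk
    simp [h]
  · rw [if_neg hk, add_zero]
    split_ifs with h3 h4
    · exact le_rfl
    · exact absurd (h3.trans h) h4
    · positivity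
    · exact le_rfl

/-- The pointwise version: against every monotone function, `f` fails the bound at uncountably many
points. -/
theorem uncountable_bad (hab : a < b) (hf : ContinuousOn f (Icc a b))
    (hconv : ∀ t ∈ Ioc a b, Convex ℝ (f '' Icc a t))
    (hpos : 0 < volume (f '' Icc a b))
    (v : ℝ → ℝ) (hv : MonotoneOn v (Icc a b)) :
    ¬ {t : ℝ | t ∈ Ico a b ∧
      ¬ ∃ C : ℝ, ∀ᶠ s in 𝓝[>] t, ‖f s - f t‖ ^ 2 ≤ C * (v s - v t)}.Countable := by
  intro hN
  set N := {t : ℝ | t ∈ Ico a b ∧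
      ¬ ∃ C : ℝ, ∀ᶠ s in 𝓝[>] t, ‖f s - f t‖ ^ 2 ≤ C * (v s - v t)} with hNdef
  obtain ⟨e, he⟩ : ∃ e : ℕ → ℝ, N ⊆ range e := by
    rcases N.eq_empty_or_nonempty with h | h
    · exact ⟨fun _ => 0, by rw [h]; exact empty_subset _⟩
    · obtain ⟨e, he⟩ := hN.exists_eq_range h
      exact ⟨e, he.le⟩
  refine no_pt hab hf hconv hpos (fun t => v t + jf e t + t) ?_ ?_
  · intro s hs t ht hst
    have h1 := hv hs ht hst.le
    have h2 := jf_mono e hst.le
    show v s + jf e s + s < v t + jf e t + t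
    linarith
  · intro t ht
    by_cases htN : t ∈ N
    · obtain ⟨n, hn⟩ := he htN
      refine ⟨1, ?_⟩
      have hcont : Tendsto (fun s => ‖f s - f t‖ ^ 2) (𝓝[>] t) (𝓝 0) := by
        have h1 : Tendsto f (𝓝[>] t) (𝓝 (f t)) := by
          have h2 : ContinuousWithinAt f (Icc a b) t := hf t ⟨ht.1, ht.2.le⟩
          refine h2.mono_left ?_
          rw [← nhdsWithin_Ioo_eq_nhdsGT ht.2]
          exact nhdsWithin_mono _ (fun x hx => ⟨ht.1.trans hx.1.le, hx.2.le⟩)
        have h3 : Tendsto (fun s => ‖f s - f t‖ ^ 2) (𝓝[>] t) (𝓝 (‖f t - f t‖ ^ 2)) :=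
          ((h1.sub_const (f t)).norm).pow 2
        simpa using h3
      have hpos2 : (0 : ℝ) < (1 / 2) ^ n := by positivity
      filter_upwards [hcont.eventually (gt_mem_nhds hpos2), Ioo_mem_nhdsGT ht.2] with s hs hs2
      have h1 := hv ⟨ht.1, ht.2.le⟩ ⟨ht.1.trans hs2.1.le, hs2.2.le⟩ hs2.1.le
      have h2 : jf e t + (1 / 2) ^ n ≤ jf e s := by
        rw [← hn] at hs2 ⊢
        exact jf_jump e n hs2.1
      show ‖f s - f t‖ ^ 2 ≤ 1 * (v s + jf e s + s - (v t + jf e t + t))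
      linarith [hs2.1]
    · have : ∃ C : ℝ, ∀ᶠ s in 𝓝[>] t, ‖f s - f t‖ ^ 2 ≤ C * (v s - v t) := by
        by_contra hcon
        exact htN ⟨ht, hcon⟩
      obtain ⟨C, hC⟩ := this
      refine ⟨max C 0, ?_⟩
      filter_upwards [hC, Ioo_mem_nhdsGT ht.2] with s hs hs2
      have h1 := hv ⟨ht.1, ht.2.le⟩ ⟨ht.1.trans hs2.1.le, hs2.2.le⟩ hs2.1.le
      have h2 := jf_mono e hs2.1.le
      show ‖f s - f t‖ ^ 2 ≤ max C 0 * (v s + jf e s + s - (v t + jf e t + t))
      calc ‖f s - f t‖ ^ 2 ≤ C * (v s - v t) := hs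
        _ ≤ max C 0 * (v s - v t) :=
          mul_le_mul_of_nonneg_right (le_max_left _ _) (by linarith)
        _ ≤ max C 0 * (v s + jf e s + s - (v t + jf e t + t)) :=
          mul_le_mul_of_nonneg_left (by linarith [hs2.1]) (le_max_right _ _)

end

end Pool.Agent.TH605.CSC
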