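import Pool.Agent.TH605.CSC.Fibre
set_option autoImplicit false

/-!
The growing image is locally constant on a dense open set of times.
-/

namespace Pool.Agent.TH605.CSC

open MeasureTheory Metric Set Filter Topology

noncomputable section

variable {f : ℝ → E}

theorem staircase (hf : ContinuousOn f (Icc 0 1))
    (h : ∀ a b : ℝ, 0 ≤ a → a < b → b ≤ 1 → Convex ℝ (f '' Icc a b) ∧ 0 < volume (f '' Icc a b))
    {a : ℝ} (ha : 0 ≤ a) :
    ∃ U : Set ℝ, IsOpen U ∧ U ⊆ Ioo a 1 ∧ Ioo a 1 ⊆ closure U ∧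
      ∀ t ∈ U, ∀ᶠ s in 𝓝 t, f '' Icc a s = f '' Icc a t := by
  refine ⟨{t | t ∈ Ioo a 1 ∧ ∀ᶠ s in 𝓝 t, f '' Icc a s = f '' Icc a t}, ?_, fun t ht => ht.1, ?_,
    fun t ht => ht.2⟩
  · rw [isOpen_iff_mem_nhds]
    rintro t ⟨ht, hev⟩
    filter_upwards [isOpen_Ioo.mem_nhds ht, hev.eventually_nhds] with s hs hs2
    refine ⟨hs, ?_⟩
    have hst : f '' Icc a s = f '' Icc a t := hs2.self_of_nhds
    filter_upwards [hs2] with r hr
    rw [hr, hst]
  · intro t ht
    rw [Metric.mem_closure_iff]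
    intro ε hε
    -- an interval `(p, q)` near `t`
    set p : ℝ := max ((a + t) / 2) (t - ε / 2) with hp
    set q : ℝ := min ((t + 1) / 2) (t + ε / 2) with hq
    have hpt : p < t := max_lt (by linarith [ht.1]) (by linarith)
    have htq : t < q := lt_min (by linarith [ht.2]) (by linarith)
    have hap : a < p := lt_of_lt_of_le (by linarith [ht.1]) (le_max_left _ _)
    have hq1 : q < 1 := lt_of_le_of_lt (min_le_left _ _) (by linarith [ht.2])
    have hpe : t - ε / 2 ≤ p := le_max_right _ _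
    have hqe : q ≤ t + ε / 2 := min_le_right _ _
    have hp0 : 0 ≤ p := ha.trans hap.le
    set W := interior (f '' Icc p t ∩ f '' Icc t q) with hW
    have hWo : IsOpen W := isOpen_interior
    obtain ⟨z, hz⟩ : W.Nonempty := overlap hf h hp0 hpt htq hq1.le
    obtain ⟨u0, hu0, hu0z⟩ := (interior_subset hz).2
    have hc : ContinuousOn f (Icc t q) := hf.mono (Icc_subset_Icc (hp0.trans hpt.le) hq1.le)
    have hnb : (𝓝[Ioo t q] u0).NeBot := by
      rw [← mem_closure_iff_nhdsWithin_neBot, closure_Ioo htq.ne]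
      exact hu0
    have h1 : ∀ᶠ x in 𝓝[Ioo t q] u0, f x ∈ W :=
      ((hc u0 hu0).mono Ioo_subset_Icc_self).eventually (hWo.mem_nhds (hu0z.symm ▸ hz))
    obtain ⟨u, huW, hu⟩ := (h1.and self_mem_nhdsWithin).exists
    have hca : ContinuousAt f u := (hc u (Ioo_subset_Icc_self hu)).continuousAt
      (Icc_mem_nhds hu.1 hu.2)
    have h2 : f ⁻¹' W ∩ Ioo t q ∈ 𝓝 u :=
      inter_mem (hca (hWo.mem_nhds huW)) (Ioo_mem_nhds hu.1 hu.2)
    obtain ⟨η, hη, hsub⟩ := Metric.nhds_basis_closedBall.mem_iff.1 h2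
    rw [Real.closedBall_eq_Icc] at hsub
    have hl : u - η ∈ Ioo t q := (hsub ⟨le_rfl, by linarith⟩).2
    have key : ∀ u' ∈ Icc (u - η) (u + η), f '' Icc a u' = f '' Icc a (u - η) := by
      intro u' hu'
      refine Subset.antisymm ?_ (image_mono (Icc_subset_Icc_right hu'.1))
      rintro _ ⟨r, hr, rfl⟩
      by_cases hr2 : r ≤ u - η
      · exact ⟨r, ⟨hr.1, hr2⟩, rfl⟩
      · have h3 := (hsub ⟨(not_le.1 hr2).le, hr.2.trans hu'.2⟩ : r ∈ f ⁻¹' W ∩ Ioo t q).1
        have h4 : f r ∈ f '' Icc p t := (interior_subset h3).1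
        exact image_mono (Icc_subset_Icc hap.le hl.1.le) h4
    refine ⟨u, ⟨⟨ht.1.trans hu.1, hu.2.trans hq1⟩, ?_⟩, ?_⟩
    · filter_upwards [Icc_mem_nhds (by linarith : u - η < u) (by linarith : u < u + η)] with s hs
      rw [key s hs, key u ⟨by linarith, by linarith⟩]
    · rw [Real.dist_eq, abs_lt]
      constructor <;> linarith [hu.1, hu.2]

end

end Pool.Agent.TH605.CSC
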